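import Mathlib

/-!
# Counting nearly degenerate matrices in a box
-/

set_option autoImplicit false

namespace Pool.Agent.Helper95.Mob

open Finset

/-- integers in an interval of radius `r` -/
lemma int_interval_card {x r : ℝ} (hr : 0 ≤ r) (S : Finset ℤ) (hS : ∀ n ∈ S, |x - n| ≤ r) :
    (S.card : ℝ) ≤ 2 * r + 1 := by
  have hsub : S ⊆ Finset.Icc ⌈x - r⌉ ⌊x + r⌋ := by
    intro n hn
    have h := abs_le.1 (hS n hn)
    rw [Finset.mem_Icc]
    exact ⟨Int.ceil_le.2 (by linarith), Int.le_floor.2 (by linarith)⟩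
  have h1 := Finset.card_le_card hsub
  rw [Int.card_Icc] at h1
  have h2 : ((⌊x + r⌋ + 1 - ⌈x - r⌉).toNat : ℝ) ≤ 2 * r + 1 := by
    have h3 : (((⌊x + r⌋ + 1 - ⌈x - r⌉).toNat : ℤ) : ℝ) = max ((⌊x + r⌋ + 1 - ⌈x - r⌉ : ℤ) : ℝ) 0 := by
      rw [Int.toNat_eq_max]
      push_cast
      rfl
    rw [Int.cast_natCast] at h3
    rw [h3]
    apply max_le _ (by linarith)
    push_cast
    have h4 := Int.floor_le (x + r)
    have h5 := Int.le_ceil (x - r)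
    linarith
  have h6 : (S.card : ℝ) ≤ ((⌊x + r⌋ + 1 - ⌈x - r⌉).toNat : ℝ) := by exact_mod_cast h1
  linarith

/-- the box of integer quadruples -/
noncomputable def box (H : ℕ) : Finset (ℤ × ℤ × ℤ × ℤ) :=
  Finset.Icc (-(H : ℤ)) H ×ˢ (Finset.Icc (-(H : ℤ)) H ×ˢ
    (Finset.Icc (-(H : ℤ)) H ×ˢ Finset.Icc (-(H : ℤ)) H))

lemma mem_box {H : ℕ} {t : ℤ × ℤ × ℤ × ℤ} : t ∈ box H ↔
    |t.1| ≤ H ∧ |t.2.1| ≤ H ∧ |t.2.2.1| ≤ H ∧ |t.2.2.2| ≤ H := by
  simp only [box, Finset.mem_product, Finset.mem_Icc, abs_le]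

lemma card_Icc_H (H : ℕ) : (Finset.Icc (-(H : ℤ)) H).card = 2 * H + 1 := by
  rw [Int.card_Icc]
  omega

lemma card_box (H : ℕ) : (box H).card = (2 * H + 1) ^ 4 := by
  simp only [box, Finset.card_product, card_Icc_H]
  ring

/-- fibre counting along a projection to a three dimensional box -/
lemma card_fibre {H : ℕ} {ρ : ℝ} (S : Finset (ℤ × ℤ × ℤ × ℤ)) (π : ℤ × ℤ × ℤ × ℤ → ℤ × ℤ × ℤ)
    (φ : ℤ × ℤ × ℤ × ℤ → ℤ) (hinj : ∀ s t, π s = π t → φ s = φ t → s = t)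
    (hπ : ∀ t ∈ S, |(π t).1| ≤ H ∧ |(π t).2.1| ≤ H ∧ |(π t).2.2| ≤ H) (hρ : 0 ≤ ρ)
    (x : ℤ × ℤ × ℤ → ℝ) (hS : ∀ t ∈ S, |x (π t) - φ t| ≤ ρ) :
    (S.card : ℝ) ≤ (2 * ρ + 1) * (2 * H + 1) ^ 3 := by
  classical
  have h1 : ∀ z ∈ S.image π, (S.filter (fun t => π t = z)).card ≤ ⌊2 * ρ + 1⌋₊ := by
    intro z _
    have h2 : (S.filter (fun t => π t = z)).card
        = ((S.filter (fun t => π t = z)).image φ).card := by
      rw [Finset.card_image_of_injOn]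
      intro s hs t ht hst
      have hs' := (Finset.mem_filter.1 hs).2
      have ht' := (Finset.mem_filter.1 ht).2
      exact hinj s t (hs'.trans ht'.symm) hst
    rw [h2]
    apply Nat.le_floor
    apply int_interval_card (x := x z) hρ
    intro n hn
    obtain ⟨t, ht, rfl⟩ := Finset.mem_image.1 hn
    obtain ⟨htS, htz⟩ := Finset.mem_filter.1 ht
    have := hS t htS
    rwa [htz] at this
  have h3 := Finset.card_le_mul_card_image S _ h1
  have h4 : (S.image π).card ≤ (2 * H + 1) ^ 3 := by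
    have hsub : S.image π ⊆ Finset.Icc (-(H : ℤ)) H ×ˢ (Finset.Icc (-(H : ℤ)) H ×ˢ
        Finset.Icc (-(H : ℤ)) H) := by
      intro z hz
      obtain ⟨t, ht, rfl⟩ := Finset.mem_image.1 hz
      obtain ⟨a1, a2, a3⟩ := hπ t ht
      simp only [Finset.mem_product, Finset.mem_Icc]
      exact ⟨abs_le.1 a1, abs_le.1 a2, abs_le.1 a3⟩
    refine (Finset.card_le_card hsub).trans (le_of_eq ?_)
    simp only [Finset.card_product, card_Icc_H]
    ring
  have h5 : S.card ≤ ⌊2 * ρ + 1⌋₊ * (2 * H + 1) ^ 3 := h3.trans (Nat.mul_le_mul_left _ h4)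
  have h6 : (S.card : ℝ) ≤ (⌊2 * ρ + 1⌋₊ : ℝ) * (2 * H + 1) ^ 3 := by exact_mod_cast h5
  refine h6.trans ?_
  apply mul_le_mul_of_nonneg_right _ (by positivity)
  exact Nat.floor_le (by linarith)

/-- matrices with small `e ξ + f` -/
lemma small_y_card {ξ ρ : ℝ} (hρ : 0 ≤ ρ) (H : ℕ) (S : Finset (ℤ × ℤ × ℤ × ℤ)) (hS : S ⊆ box H)
    (h : ∀ t ∈ S, |(t.2.2.1 : ℝ) * ξ + t.2.2.2| ≤ ρ) :
    (S.card : ℝ) ≤ (2 * ρ + 1) * (2 * H + 1) ^ 3 := by
  apply card_fibre S (fun t => (t.1, t.2.1, t.2.2.1)) (fun t => t.2.2.2) _ _ hρ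
    (fun z => -((z.2.2 : ℝ) * ξ))
  · intro t ht
    have := h t ht
    simp only
    rw [← abs_neg]
    have e : -(-((t.2.2.1 : ℝ) * ξ) - (t.2.2.2 : ℝ)) = (t.2.2.1 : ℝ) * ξ + t.2.2.2 := by ring
    rw [e]
    exact this
  · intro s t h1 h2
    simp only [Prod.mk.injEq] at h1 h2
    exact Prod.ext h1.1 (Prod.ext h1.2.1 (Prod.ext h1.2.2 h2))
  · intro t ht
    obtain ⟨a1, a2, a3, _⟩ := mem_box.1 (hS ht)
    exact ⟨a1, a2, a3⟩

/-- matrices with small determinant -/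
lemma small_det_card {r : ℝ} (hr : 0 < r) {H : ℕ} (hH : 1 ≤ H) (S : Finset (ℤ × ℤ × ℤ × ℤ))
    (hS : S ⊆ box H)
    (h : ∀ t ∈ S, |(t.1 : ℝ) * t.2.2.2 - t.2.1 * t.2.2.1| ≤ r ^ 2 * (H : ℝ) ^ 2) :
    (S.card : ℝ) ≤ 2 * ((2 * (r * H) + 1) * (2 * H + 1) ^ 3) := by
  classical
  have hHR : (0:ℝ) < H := by exact_mod_cast hH
  have hsplit : (S.card : ℝ) = ((S.filter (fun t => |(t.1 : ℝ)| ≤ r * H)).card : ℝ)
      + ((S.filter (fun t => ¬ |(t.1 : ℝ)| ≤ r * H)).card : ℝ) := by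
    exact_mod_cast (Finset.card_filter_add_card_filter_not (s := S)
      (fun t => |(t.1 : ℝ)| ≤ r * H)).symm
  have h1 : ((S.filter (fun t => |(t.1 : ℝ)| ≤ r * H)).card : ℝ)
      ≤ (2 * (r * H) + 1) * (2 * H + 1) ^ 3 := by
    apply card_fibre _ (fun t => (t.2.1, t.2.2.1, t.2.2.2)) (fun t => t.1) _ _ (by positivity)
      (fun _ => 0)
    · intro t ht
      rw [zero_sub, abs_neg]
      exact (Finset.mem_filter.1 ht).2
    · intro s t h1 h2
      simp only [Prod.mk.injEq] at h1 h2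
      exact Prod.ext h2 (Prod.ext h1.1 (Prod.ext h1.2.1 h1.2.2))
    · intro t ht
      obtain ⟨_, a2, a3, a4⟩ := mem_box.1 (hS (Finset.mem_filter.1 ht).1)
      exact ⟨a2, a3, a4⟩
  have h2 : ((S.filter (fun t => ¬ |(t.1 : ℝ)| ≤ r * H)).card : ℝ)
      ≤ (2 * (r * H) + 1) * (2 * H + 1) ^ 3 := by
    apply card_fibre _ (fun t => (t.1, t.2.1, t.2.2.1)) (fun t => t.2.2.2) _ _ (by positivity)
      (fun z => (z.2.1 : ℝ) * z.2.2 / z.1)
    · intro t ht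
      obtain ⟨htS, hta⟩ := Finset.mem_filter.1 ht
      simp only
      push Not at hta
      have hapos : 0 < |(t.1 : ℝ)| := lt_trans (by positivity) hta
      have ha0 : (t.1 : ℝ) ≠ 0 := abs_pos.1 hapos
      have e : (t.2.1 : ℝ) * t.2.2.1 / t.1 - t.2.2.2
          = -(((t.1 : ℝ) * t.2.2.2 - t.2.1 * t.2.2.1) / t.1) := by
        field_simp
        ring
      rw [e, abs_neg, abs_div, div_le_iff₀ hapos]
      refine (h t htS).trans ?_
      have : r ^ 2 * (H : ℝ) ^ 2 = (r * H) * (r * H) := by ring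
      rw [this]
      exact mul_le_mul_of_nonneg_left hta.le (by positivity)
    · intro s t h1 h2
      simp only [Prod.mk.injEq] at h1 h2
      exact Prod.ext h1.1 (Prod.ext h1.2.1 (Prod.ext h1.2.2 h2))
    · intro t ht
      obtain ⟨a1, a2, a3, _⟩ := mem_box.1 (hS (Finset.mem_filter.1 ht).1)
      exact ⟨a1, a2, a3⟩
  linarith

end Pool.Agent.Helper95.Mob
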