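import Pool.Agent.Helper95.Mob.Main
import Pool.Agent.Helper92.Field.Divisor

/-!
# Lang's inequality for almost all images of a number under integer matrices: conclusion
-/

set_option autoImplicit false

namespace Pool.Agent.Helper95.Mob

open Finset Filter Topology
open Pool.Agent.Helper95.Div (bet W Z W_pos Z_nonneg sum_le_Z bet_pos eventually_rpow_ge)

lemma one_le_W {ε : ℝ} (hε : 0 < ε) : 1 ≤ W ε := by
  unfold W
  apply Real.one_le_rpow _ (by linarith)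
  have h1 : 0 < Real.log 2 := Real.log_pos (by norm_num)
  have h2 : Real.log 2 ≤ 1 := by
    have := Real.log_two_lt_d9
    linarith
  rw [le_div_iff₀ h1]
  linarith

lemma eventually_log {A κ : ℝ} (hκ : 0 < κ) :
    ∀ᶠ H : ℕ in atTop, A * Real.log H / Real.log 2 + 1 ≤ (H : ℝ) ^ κ := by
  have h1 : Tendsto (fun x : ℝ => Real.log x / x ^ κ) atTop (𝓝 0) :=
    (isLittleO_log_rpow_atTop hκ).tendsto_div_nhds_zero
  have h2 : Tendsto (fun x : ℝ => A / Real.log 2 * (Real.log x / x ^ κ)) atTop (𝓝 0) := by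
    have := h1.const_mul (A / Real.log 2)
    rwa [mul_zero] at this
  have h3 := (h2.comp tendsto_natCast_atTop_atTop).eventually (gt_mem_nhds (show (0:ℝ) < 1 / 2 by norm_num))
  filter_upwards [h3, eventually_rpow_ge hκ 2, eventually_ge_atTop 1] with H h4 h5 h6
  simp only [Function.comp] at h4
  have hH : (0:ℝ) < H := by exact_mod_cast h6
  have hpos : 0 < (H : ℝ) ^ κ := by positivity
  have h7 : A / Real.log 2 * Real.log H < 1 / 2 * (H : ℝ) ^ κ := by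
    have : A / Real.log 2 * Real.log H = (A / Real.log 2 * (Real.log H / (H : ℝ) ^ κ)) * (H : ℝ) ^ κ := by
      field_simp
    rw [this]
    exact mul_lt_mul_of_pos_right h4 hpos
  have h8 : A * Real.log H / Real.log 2 = A / Real.log 2 * Real.log H := by ring
  rw [h8]
  linarith

/-- the case `|ξ| ≤ 1` -/
theorem core {ε r ξ τ c₀ A : ℝ} (hε : 0 < ε) (hr : 0 < r) (hr1 : r ≤ 1)
    (hrW : 4 * (r ^ 11 * W ε) ≤ r ^ 2) (hξ1 : |ξ| ≤ 1) (hτ : 1 ≤ τ) (hc₀ : 0 < c₀)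
    (hξ : ∀ (n : ℕ) (k : ℤ), 1 ≤ n → c₀ / (n : ℝ) ^ τ ≤ |(n : ℝ) * ξ - k|)
    (hA0 : 0 ≤ A) (hA : A * (τ - 1) < τ + 1) :
    ∀ᶠ H : ℕ in atTop, ((BadM ε (r ^ 11) ((H : ℝ) ^ A) ξ H).card : ℝ)
      ≤ (7 + 90000 * (W ε * Z ε)) * r * (2 * H + 1) ^ 4 := by
  have hW := W_pos ε
  have hZ := Z_nonneg ε
  have hc : 0 < r ^ 11 := by positivity
  set c := r ^ 11 with hcdef
  set e := (τ + 1 - A * (τ - 1)) / 2 with he
  have he0 : 0 < e := by rw [he]; linarith
  set κ := e / (τ + 1) with hκ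
  have hκ0 : 0 < κ := by positivity
  have hexp : A * (τ - 1) - (1 - κ) * (τ + 1) = -e := by
    have : κ * (τ + 1) = e := by
      rw [hκ]
      field_simp
    have h2 : 2 * e = τ + 1 - A * (τ - 1) := by rw [he]; ring
    linarith
  set K₁ := (6 / r) ^ τ * (48 * (c * W ε) / r) with hK₁
  have hK₁0 : 0 < K₁ := by positivity
  obtain ⟨C₁, hC₁, hdiv⟩ := Pool.Agent.Helper92.Field.divisor_bound (ε := κ / 10) (by positivity)
  set M : ℝ := ((2 * ⌊2 / r ^ 2⌋₊ + 1 : ℕ) : ℝ) ^ 4 with hM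
  have hM0 : 0 < M := by positivity
  have hMle : M ≤ 625 / r ^ 8 := by
    have h1 : ((2 * ⌊2 / r ^ 2⌋₊ + 1 : ℕ) : ℝ) ≤ 5 / r ^ 2 := by
      push_cast
      have h2 : (⌊2 / r ^ 2⌋₊ : ℝ) ≤ 2 / r ^ 2 := Nat.floor_le (by positivity)
      have h3 : 1 ≤ 1 / r ^ 2 := by
        rw [le_div_iff₀ (by positivity), one_mul]
        exact pow_le_one₀ hr.le hr1
      have h4 : 5 / r ^ 2 = 2 * (2 / r ^ 2) + 1 / r ^ 2 := by ring
      linarith
    calc M ≤ (5 / r ^ 2) ^ 4 := pow_le_pow_left₀ (by positivity) h1 4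
      _ = 625 / r ^ 8 := by
        rw [div_pow]
        norm_num
        ring
  clear_value M
  filter_upwards [eventually_rpow_ge he0 (K₁ / c₀ + 1), eventually_log (A := A) (κ := κ / 10)
      (by positivity), eventually_rpow_ge (show 0 < κ / 2 by positivity)
      (M * (2 * C₁ ^ 2 * (2:ℝ) ^ (κ / 5)) / (16 * r)),
      eventually_ge_atTop 1, (tendsto_natCast_atTop_atTop (R := ℝ)).eventually_ge_atTop (1 / (2 * r))]
    with H h1 h2 h3 h4 h5
  have hHR : (0:ℝ) < H := by exact_mod_cast h4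
  set G := (H : ℝ) ^ (2 - κ) with hG
  have hG0 : 0 < G := by positivity
  set I := ⌊A * Real.log H / Real.log 2⌋₊ with hI
  have hlog2 : 0 < Real.log 2 := Real.log_pos (by norm_num)
  have hlogH : 0 ≤ Real.log H := Real.log_natCast_nonneg H
  have hcount := badM_card (X := (H : ℝ) ^ A) (G := G) (I := I) hε hc hr hrW h4 hξ1 hG0.le
    (by
      intro i hi
      apply Nat.le_floor
      rw [le_div_iff₀ hlog2]
      have := Real.log_le_log (by positivity) hi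
      rwa [Real.log_pow, Real.log_rpow hHR] at this)
    (by
      intro i hi a₀ d₀ g ha₀ hd₀ hg hidx hGg
      apply T_empty hr (bet_pos hc i).le (by linarith) hξ h4 ha₀ hd₀ hg hidx
      have h6 := small_bound (c := c) (W' := W ε) (β := bet ε c i) hr (by positivity) hτ h4 hi hGg
        (bet_pos hc i).le (bet_le hε hc i)
      refine lt_of_le_of_lt h6 ?_
      rw [hexp, ← hK₁, Real.rpow_neg hHR.le, ← div_eq_mul_inv, div_lt_iff₀ (by positivity)]
      have h7 : K₁ / c₀ < (H : ℝ) ^ e := by linarith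
      rw [div_lt_iff₀ hc₀] at h7
      linarith)
  rw [← hM] at hcount
  refine hcount.trans ?_
  -- the three terms
  have t1 : 3 * ((2 * (r * H) + 1) * (2 * (H : ℝ) + 1) ^ 3) ≤ 6 * r * (2 * H + 1) ^ 4 := by
    have h8 : 2 * (r * H) + 1 ≤ 2 * r * (2 * H + 1) := by
      rw [div_le_iff₀ (by positivity)] at h5
      nlinarith
    calc 3 * ((2 * (r * H) + 1) * (2 * (H : ℝ) + 1) ^ 3)
        ≤ 3 * ((2 * r * (2 * H + 1)) * (2 * (H : ℝ) + 1) ^ 3) := by gcongr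
      _ = 6 * r * (2 * H + 1) ^ 4 := by ring
  have hH4 : 16 * (H : ℝ) ^ 4 ≤ (2 * H + 1) ^ 4 := by
    have : (2 * (H : ℝ)) ^ 4 ≤ (2 * H + 1) ^ 4 := by gcongr; linarith
    calc 16 * (H : ℝ) ^ 4 = (2 * (H : ℝ)) ^ 4 := by ring
      _ ≤ _ := this
  have t2 : M * (2304 * (c * W ε * Z ε) / r ^ 2 * (H : ℝ) ^ 4)
      ≤ 90000 * (W ε * Z ε) * r * (2 * H + 1) ^ 4 := by
    calc M * (2304 * (c * W ε * Z ε) / r ^ 2 * (H : ℝ) ^ 4)
        ≤ 625 / r ^ 8 * (2304 * (c * W ε * Z ε) / r ^ 2 * (H : ℝ) ^ 4) := by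
          apply mul_le_mul_of_nonneg_right hMle
          positivity
      _ = 90000 * (W ε * Z ε) * r * (16 * (H : ℝ) ^ 4) := by
          rw [hcdef]
          field_simp
          ring
      _ ≤ 90000 * (W ε * Z ε) * r * (2 * H + 1) ^ 4 := by
          apply mul_le_mul_of_nonneg_left hH4
          positivity
  have hS₂ : ∑ D ∈ Finset.Ioc 0 (2 * H ^ 2), (D.divisors.card : ℝ) ^ 2
      ≤ 2 * (H : ℝ) ^ 2 * (C₁ ^ 2 * ((2:ℝ) ^ (κ / 5) * (H : ℝ) ^ (2 * κ / 5))) := by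
    have h9 : ∀ D ∈ Finset.Ioc 0 (2 * H ^ 2), (D.divisors.card : ℝ) ^ 2
        ≤ C₁ ^ 2 * ((2:ℝ) ^ (κ / 5) * (H : ℝ) ^ (2 * κ / 5)) := by
      intro D hD
      obtain ⟨hD0, hDle⟩ := Finset.mem_Ioc.1 hD
      have h10 := hdiv D hD0.ne'
      have hDR : (D : ℝ) ≤ 2 * (H : ℝ) ^ 2 := by exact_mod_cast hDle
      have h11 : (D : ℝ) ^ (κ / 10) ≤ (2 * (H : ℝ) ^ 2) ^ (κ / 10) :=
        Real.rpow_le_rpow (Nat.cast_nonneg D) hDR (by positivity)
      have h12 : (D.divisors.card : ℝ) ≤ C₁ * (2 * (H : ℝ) ^ 2) ^ (κ / 10) :=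
        h10.trans (mul_le_mul_of_nonneg_left h11 hC₁.le)
      calc (D.divisors.card : ℝ) ^ 2 ≤ (C₁ * (2 * (H : ℝ) ^ 2) ^ (κ / 10)) ^ 2 :=
            pow_le_pow_left₀ (Nat.cast_nonneg _) h12 2
        _ = C₁ ^ 2 * ((2:ℝ) ^ (κ / 5) * (H : ℝ) ^ (2 * κ / 5)) := by
            rw [mul_pow, ← Real.rpow_natCast ((2 * (H : ℝ) ^ 2) ^ (κ / 10)) 2,
              ← Real.rpow_mul (by positivity), Real.mul_rpow (by norm_num) (by positivity),
              ← Real.rpow_natCast (H : ℝ) 2, ← Real.rpow_mul hHR.le]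
            congr 3
            · push_cast; ring
            · push_cast; ring
    refine (Finset.sum_le_sum h9).trans (le_of_eq ?_)
    rw [Finset.sum_const, Nat.card_Ioc, nsmul_eq_mul, Nat.sub_zero]
    push_cast
    ring
  have hI1 : (I : ℝ) + 1 ≤ (H : ℝ) ^ (κ / 10) := by
    have : (I : ℝ) ≤ A * Real.log H / Real.log 2 := Nat.floor_le (by positivity)
    linarith
  have t3 : M * (((I : ℝ) + 1) * ((∑ D ∈ Finset.Ioc 0 (2 * H ^ 2), (D.divisors.card : ℝ) ^ 2) * G))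
      ≤ r * (2 * H + 1) ^ 4 := by
    calc M * (((I : ℝ) + 1) * ((∑ D ∈ Finset.Ioc 0 (2 * H ^ 2), (D.divisors.card : ℝ) ^ 2) * G))
        ≤ M * ((H : ℝ) ^ (κ / 10) * ((2 * (H : ℝ) ^ 2 *
            (C₁ ^ 2 * ((2:ℝ) ^ (κ / 5) * (H : ℝ) ^ (2 * κ / 5)))) * G)) := by
          apply mul_le_mul_of_nonneg_left _ hM0.le
          apply mul_le_mul hI1 (mul_le_mul_of_nonneg_right hS₂ hG0.le)
            (mul_nonneg (Finset.sum_nonneg fun D _ => by positivity) hG0.le) (by positivity)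
      _ = M * (2 * C₁ ^ 2 * (2:ℝ) ^ (κ / 5)) * ((H : ℝ) ^ (κ / 10) * (H : ℝ) ^ (2:ℝ)
            * (H : ℝ) ^ (2 * κ / 5) * (H : ℝ) ^ (2 - κ)) := by
          rw [Real.rpow_two]
          ring
      _ = M * (2 * C₁ ^ 2 * (2:ℝ) ^ (κ / 5)) * (H : ℝ) ^ (4 - κ / 2) := by
          rw [← Real.rpow_add hHR, ← Real.rpow_add hHR, ← Real.rpow_add hHR]
          congr 2
          ring
      _ ≤ (16 * r * (H : ℝ) ^ (κ / 2)) * (H : ℝ) ^ (4 - κ / 2) := by
          apply mul_le_mul_of_nonneg_right _ (by positivity)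
          rw [div_le_iff₀ (by positivity)] at h3
          linarith
      _ = r * (16 * (H : ℝ) ^ 4) := by
          have : (H : ℝ) ^ 4 = (H : ℝ) ^ (κ / 2) * (H : ℝ) ^ (4 - κ / 2) := by
            rw [← Real.rpow_add hHR, ← Real.rpow_natCast]
            congr 1
            push_cast
            ring
          rw [this]
          ring
      _ ≤ r * (2 * H + 1) ^ 4 := mul_le_mul_of_nonneg_left hH4 hr.le
  have hfin : 3 * ((2 * (r * H) + 1) * (2 * (H : ℝ) + 1) ^ 3) +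
      M * (((I : ℝ) + 1) * ((∑ D ∈ Finset.Ioc 0 (2 * H ^ 2), (D.divisors.card : ℝ) ^ 2) * G) +
        2304 * (c * W ε * Z ε) / r ^ 2 * (H : ℝ) ^ 4)
      ≤ 6 * r * (2 * H + 1) ^ 4 + (r * (2 * H + 1) ^ 4
        + 90000 * (W ε * Z ε) * r * (2 * H + 1) ^ 4) := by
    rw [mul_add]
    exact add_le_add t1 (add_le_add t3 t2)
  refine hfin.trans (le_of_eq ?_)
  ring

/-- the inverse has the same exponent -/
lemma inv_exponent {ξ τ c₀ : ℝ} (h1 : 1 < |ξ|) (hτ : 1 ≤ τ) (hc₀ : 0 < c₀)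
    (hξ : ∀ (n : ℕ) (k : ℤ), 1 ≤ n → c₀ / (n : ℝ) ^ τ ≤ |(n : ℝ) * ξ - k|) :
    ∃ c₁ : ℝ, 0 < c₁ ∧ ∀ (n : ℕ) (k : ℤ), 1 ≤ n → c₁ / (n : ℝ) ^ τ ≤ |(n : ℝ) * ξ⁻¹ - k| := by
  have hξpos : 0 < |ξ| := by linarith
  have hξ0 : ξ ≠ 0 := abs_pos.1 hξpos
  set c₁ := min 1 (c₀ / 2 ^ τ) / |ξ| with hc₁
  have hmin : 0 < min 1 (c₀ / 2 ^ τ) := lt_min one_pos (by positivity)
  refine ⟨c₁, by positivity, ?_⟩
  intro n k hn
  have hnR : (1:ℝ) ≤ n := by exact_mod_cast hn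
  have hn0 : (0:ℝ) < n := by linarith
  have hnτ : 1 ≤ (n : ℝ) ^ τ := Real.one_le_rpow hnR (by linarith)
  have hle1 : c₁ / (n : ℝ) ^ τ ≤ 1 / |ξ| := by
    have h2 : c₁ ≤ 1 / |ξ| := div_le_div_of_nonneg_right (min_le_left _ _) hξpos.le
    exact (div_le_self (by positivity) hnτ).trans h2
  have hinv : |ξ⁻¹| ≤ 1 := by
    rw [abs_inv]
    exact inv_le_one_of_one_le₀ h1.le
  rcases eq_or_ne k 0 with hk | hk
  · rw [hk, Int.cast_zero, sub_zero, abs_mul, abs_of_pos hn0, abs_inv]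
    refine hle1.trans ?_
    rw [one_div]
    exact le_mul_of_one_le_left (by positivity) hnR
  · have hkR : (0:ℝ) < |(k : ℝ)| := abs_pos.2 (by exact_mod_cast hk)
    rcases le_or_gt |(k : ℝ)| (2 * n) with hle | hgt
    · have hna : ((k.natAbs : ℕ) : ℝ) = |(k : ℝ)| := by
        rw [Nat.cast_natAbs, Int.cast_abs]
      have hk1 : 1 ≤ k.natAbs := Int.natAbs_pos.2 hk
      obtain ⟨s, hs⟩ : ∃ s : ℤ, |((k.natAbs : ℕ) : ℝ) * ξ - s| = |(n : ℝ) * ξ⁻¹ - k| * |ξ| := by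
        rcases le_total 0 (k : ℝ) with h | h
        · refine ⟨n, ?_⟩
          rw [hna, abs_of_nonneg h, ← abs_mul, sub_mul, mul_assoc, inv_mul_cancel₀ hξ0, mul_one,
            ← abs_neg]
          congr 1
          push_cast
          ring
        · refine ⟨-n, ?_⟩
          rw [hna, abs_of_nonpos h, ← abs_mul, sub_mul, mul_assoc, inv_mul_cancel₀ hξ0, mul_one]
          congr 1
          push_cast
          ring
      have h3 := hξ k.natAbs s hk1
      rw [hs, hna] at h3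
      have h4 : c₀ / (2 * (n : ℝ)) ^ τ ≤ c₀ / |(k : ℝ)| ^ τ := by
        apply div_le_div_of_nonneg_left hc₀.le (by positivity)
        exact Real.rpow_le_rpow hkR.le hle (by linarith)
      have h5 : c₁ / (n : ℝ) ^ τ * |ξ| ≤ c₀ / (2 * (n : ℝ)) ^ τ := by
        have e1 : c₁ / (n : ℝ) ^ τ * |ξ| = min 1 (c₀ / 2 ^ τ) / (n : ℝ) ^ τ := by
          rw [hc₁]
          field_simp
        have e2 : c₀ / (2 * (n : ℝ)) ^ τ = c₀ / 2 ^ τ / (n : ℝ) ^ τ := by
          rw [Real.mul_rpow (by norm_num) hn0.le]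
          field_simp
        rw [e1, e2]
        exact div_le_div_of_nonneg_right (min_le_right _ _) (by positivity)
      exact le_of_mul_le_mul_right (h5.trans (h4.trans h3)) hξpos
    · refine hle1.trans ?_
      have h6 : |(n : ℝ) * ξ⁻¹| ≤ n := by
        rw [abs_mul, abs_of_pos hn0]
        exact mul_le_of_le_one_right hn0.le hinv
      have h7 : |(k : ℝ)| - |(n : ℝ) * ξ⁻¹| ≤ |(n : ℝ) * ξ⁻¹ - k| := by
        rw [abs_sub_comm]
        exact abs_sub_abs_le_abs_sub _ _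
      have h8 : 1 / |ξ| ≤ 1 := by
        rw [div_le_iff₀ hξpos]
        linarith
      linarith

/-- exchanging the two columns -/
lemma badM_inv {ε c X ξ : ℝ} (hξ : ξ ≠ 0) (H : ℕ) :
    (BadM ε c X ξ H).card = (BadM ε c X ξ⁻¹ H).card := by
  classical
  have hval : ∀ a b e f : ℝ, (a * ξ + b) / (e * ξ + f) = (b * ξ⁻¹ + a) / (f * ξ⁻¹ + e) := by
    intro a b e f
    have h1 : a * ξ + b = (b * ξ⁻¹ + a) * ξ := by
      rw [add_mul, mul_assoc, inv_mul_cancel₀ hξ]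
      ring
    have h2 : e * ξ + f = (f * ξ⁻¹ + e) * ξ := by
      rw [add_mul, mul_assoc, inv_mul_cancel₀ hξ]
      ring
    rw [h1, h2, mul_div_mul_right _ _ hξ]
  apply Finset.card_bij (fun t _ => (t.2.1, t.1, t.2.2.2, t.2.2.1))
  · intro t ht
    obtain ⟨h1, p, q, h2, h3, h4⟩ := Finset.mem_filter.1 ht
    obtain ⟨a1, a2, a3, a4⟩ := mem_box.1 h1
    refine Finset.mem_filter.2 ⟨mem_box.2 ⟨a2, a1, a4, a3⟩, p, q, h2, h3, ?_⟩
    simp only
    rw [← hval]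
    exact h4
  · intro s _ t _ hst
    simp only [Prod.mk.injEq] at hst
    exact Prod.ext hst.2.1 (Prod.ext hst.1 (Prod.ext hst.2.2.2 hst.2.2.1))
  · intro t ht
    obtain ⟨h1, p, q, h2, h3, h4⟩ := Finset.mem_filter.1 ht
    obtain ⟨a1, a2, a3, a4⟩ := mem_box.1 h1
    refine ⟨(t.2.1, t.1, t.2.2.2, t.2.2.1), Finset.mem_filter.2
      ⟨mem_box.2 ⟨a2, a1, a4, a3⟩, p, q, h2, h3, ?_⟩, rfl⟩
    simp only
    rw [hval]
    exact h4

lemma badM_mono {ε c X Y ξ : ℝ} (hXY : X ≤ Y) (H : ℕ) :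
    (BadM ε c X ξ H).card ≤ (BadM ε c Y ξ H).card := by
  classical
  apply Finset.card_le_card
  intro t ht
  obtain ⟨h1, p, q, h2, h3, h4⟩ := Finset.mem_filter.1 ht
  exact Finset.mem_filter.2 ⟨h1, p, q, h2, h3.trans hXY, h4⟩

/-- The general bound: `ξ` with `|n ξ - k| ≥ c₀ n ^ (-τ)`. -/
theorem mobius_bound {ε : ℝ} (hε : 0 < ε) :
    ∃ C : ℝ, 0 < C ∧ ∀ ξ τ c₀ A c : ℝ, 1 ≤ τ → 0 < c₀ →
      (∀ (n : ℕ) (k : ℤ), 1 ≤ n → c₀ / (n : ℝ) ^ τ ≤ |(n : ℝ) * ξ - k|) →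
      A * (τ - 1) < τ + 1 → 0 < c →
      ∀ᶠ H : ℕ in atTop, ((BadM ε c ((H : ℝ) ^ A) ξ H).card : ℝ)
        ≤ C * c ^ ((1:ℝ) / 11) * (2 * H + 1) ^ 4 := by
  have hW1 := one_le_W hε
  have hZ := Z_nonneg ε
  have hW := W_pos ε
  refine ⟨7 + 90000 * (W ε * Z ε) + 4 * W ε, by positivity, ?_⟩
  intro ξ τ c₀ A c hτ hc₀ hξ hA hc
  set r := c ^ ((1:ℝ) / 11) with hr
  have hr0 : 0 < r := by positivity
  have hr11 : r ^ 11 = c := by
    rw [hr, ← Real.rpow_natCast, ← Real.rpow_mul hc.le]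
    norm_num
  by_cases hsmall : 4 * (W ε * r ^ 9) ≤ 1
  · have hr1 : r ≤ 1 := by
      by_contra hcon
      push Not at hcon
      have h1 : 1 < r ^ 9 := one_lt_pow₀ hcon (by norm_num)
      nlinarith
    have hrW : 4 * (r ^ 11 * W ε) ≤ r ^ 2 := by
      have h1 : 4 * (r ^ 11 * W ε) = (4 * (W ε * r ^ 9)) * r ^ 2 := by ring
      rw [h1]
      exact mul_le_of_le_one_left (by positivity) hsmall
    set A' := max A 0 with hA'
    have hA'0 : 0 ≤ A' := le_max_right _ _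
    have hA'1 : A' * (τ - 1) < τ + 1 := by
      rcases max_cases A 0 with ⟨h, _⟩ | ⟨h, _⟩
      · rw [hA', h]
        exact hA
      · rw [hA', h]
        linarith
    have hfinal : ∀ᶠ H : ℕ in atTop, ((BadM ε c ((H : ℝ) ^ A') ξ H).card : ℝ)
        ≤ (7 + 90000 * (W ε * Z ε)) * r * (2 * H + 1) ^ 4 := by
      rcases le_or_gt |ξ| 1 with h | h
      · have := core hε hr0 hr1 hrW h hτ hc₀ hξ hA'0 hA'1
        rwa [hr11] at this
      · obtain ⟨c₁, hc₁, hinv⟩ := inv_exponent h hτ hc₀ hξ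
        have h1 : |ξ⁻¹| ≤ 1 := by
          rw [abs_inv]
          exact inv_le_one_of_one_le₀ h.le
        have h2 := core hε hr0 hr1 hrW h1 hτ hc₁ hinv hA'0 hA'1
        rw [hr11] at h2
        have hξ0 : ξ ≠ 0 := by
          intro h0
          rw [h0, abs_zero] at h
          linarith
        filter_upwards [h2] with H h3
        rw [badM_inv hξ0]
        exact h3
    filter_upwards [hfinal, eventually_ge_atTop 1] with H h1 h2
    have hHR : (1:ℝ) ≤ H := by exact_mod_cast h2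
    have h3 : (BadM ε c ((H : ℝ) ^ A) ξ H).card ≤ (BadM ε c ((H : ℝ) ^ A') ξ H).card :=
      badM_mono (Real.rpow_le_rpow_of_exponent_le hHR (le_max_left _ _)) H
    have h4 : ((BadM ε c ((H : ℝ) ^ A) ξ H).card : ℝ) ≤ (BadM ε c ((H : ℝ) ^ A') ξ H).card := by
      exact_mod_cast h3
    refine h4.trans (h1.trans ?_)
    apply mul_le_mul_of_nonneg_right _ (by positivity)
    apply mul_le_mul_of_nonneg_right _ hr0.le
    linarith
  · push Not at hsmall
    refine Filter.Eventually.of_forall (fun H => ?_)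
    have h1 : (BadM ε c ((H : ℝ) ^ A) ξ H).card ≤ (2 * H + 1) ^ 4 := by
      classical
      rw [← card_box]
      exact Finset.card_le_card (Finset.filter_subset _ _)
    have h2 : ((BadM ε c ((H : ℝ) ^ A) ξ H).card : ℝ) ≤ (2 * H + 1) ^ 4 := by
      exact_mod_cast h1
    refine h2.trans ?_
    have h3 : 1 ≤ (4 * W ε) * r := by
      by_contra hcon
      push Not at hcon
      rcases le_or_gt r 1 with h | h
      · have h4 : r ^ 9 ≤ r := by
          calc r ^ 9 ≤ r ^ 1 := pow_le_pow_of_le_one hr0.le h (by norm_num)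
            _ = r := pow_one r
        nlinarith
      · nlinarith
    have h4 : 1 ≤ (7 + 90000 * (W ε * Z ε) + 4 * W ε) * r := by
      have : 0 ≤ (7 + 90000 * (W ε * Z ε)) * r := by positivity
      linarith
    exact le_mul_of_one_le_left (by positivity) h4

end Pool.Agent.Helper95.Mob
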