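import Pool.Agent.Helper95.Mob.Count

/-!
# Hermite normal form of a `2 × 2` matrix and approximations
-/

set_option autoImplicit false

namespace Pool.Agent.Helper95.Mob

open Finset

/-- the lattice with rows `(a₀, b₀)`, `(0, d₀)` -/
def Lat (a₀ b₀ d₀ : ℕ) : Set (ℤ × ℤ) :=
  {t | ∃ k l : ℤ, t.1 = k * a₀ ∧ t.2 = k * b₀ + l * d₀}

lemma sign_split (z : ℤ) : ∃ σ : ℤ, (σ = 1 ∨ σ = -1) ∧ z = σ * (z.natAbs : ℤ) := by
  rcases le_total 0 z with h | h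
  · exact ⟨1, Or.inl rfl, by rw [one_mul, Int.natAbs_of_nonneg h]⟩
  · exact ⟨-1, Or.inr rfl, by rw [Int.ofNat_natAbs_of_nonpos h]; ring⟩

/-- the reduced approximation of the Hecke point attached to a matrix -/
lemma key (a b e f : ℤ) (hD : a * f - b * e ≠ 0) (p : ℤ) (q : ℕ) (hpq : Int.gcd p q = 1) (ξ : ℝ)
    (hu : (q : ℤ) * a - p * e ≠ 0) :
    ∃ a₀ b₀ d₀ : ℕ, 0 < a₀ ∧ b₀ < d₀ ∧ ((a₀ * d₀ : ℕ) : ℤ) = |a * f - b * e| ∧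
      (a, b) ∈ Lat a₀ b₀ d₀ ∧ (e, f) ∈ Lat a₀ b₀ d₀ ∧
      ∃ (p₀ : ℤ) (q₀ : ℕ), Int.gcd p₀ q₀ = 1 ∧ 1 ≤ q₀ ∧
        ((a₀ * q₀ : ℕ) : ℤ) = |(q : ℤ) * a - p * e| ∧
        |((a₀ : ℝ) * ξ + (b₀ : ℝ)) / (d₀ : ℝ) - (p₀ : ℝ) / (q₀ : ℝ)|
          = |((q : ℝ) * a - p * e) * ξ + ((q : ℝ) * b - p * f)| / ((d₀ : ℝ) * (q₀ : ℝ)) := by
  set a₀ := Int.gcd a e with ha₀
  have ha₀pos : 0 < a₀ := by
    rw [ha₀, Int.gcd_pos_iff]
    by_contra h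
    push Not at h
    apply hD
    rw [h.1, h.2]
    ring
  obtain ⟨a₁, ha₁⟩ : (a₀ : ℤ) ∣ a := Int.gcd_dvd_left a e
  obtain ⟨e₁, he₁⟩ : (a₀ : ℤ) ∣ e := Int.gcd_dvd_right a e
  have hbez := Int.gcd_eq_gcd_ab a e
  set x := Int.gcdA a e
  set y := Int.gcdB a e
  rw [← ha₀] at hbez
  have ha₀Z : (a₀ : ℤ) ≠ 0 := by exact_mod_cast ha₀pos.ne'
  have hxy : a₁ * x + e₁ * y = 1 := by
    apply mul_left_cancel₀ ha₀Z
    calc (a₀ : ℤ) * (a₁ * x + e₁ * y) = (a₀ * a₁) * x + (a₀ * e₁) * y := by ring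
      _ = a * x + e * y := by rw [← ha₁, ← he₁]
      _ = (a₀ : ℤ) * 1 := by rw [mul_one]; exact hbez.symm
  set b₁ := x * b + y * f with hb₁
  set d₁ := a₁ * f - e₁ * b with hd₁
  have hdet : a * f - b * e = a₀ * d₁ := by
    rw [hd₁, ha₁, he₁]
    ring
  have hb : b = a₁ * b₁ - y * d₁ := by
    have : a₁ * b₁ - y * d₁ = (a₁ * x + e₁ * y) * b := by
      rw [hb₁, hd₁]
      ring
    rw [this, hxy, one_mul]
  have hf : f = e₁ * b₁ + x * d₁ := by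
    have : e₁ * b₁ + x * d₁ = (a₁ * x + e₁ * y) * f := by
      rw [hb₁, hd₁]
      ring
    rw [this, hxy, one_mul]
  have hd₁0 : d₁ ≠ 0 := by
    intro h
    apply hD
    rw [hdet, h, mul_zero]
  set q' := (q : ℤ) * a₁ - p * e₁ with hq'
  set p' := (q : ℤ) * y + p * x with hp'
  have hu' : (q : ℤ) * a - p * e = a₀ * q' := by
    rw [hq', ha₁, he₁]
    ring
  have hv' : (q : ℤ) * b - p * f = q' * b₁ - p' * d₁ := by
    nth_rewrite 1 [hb]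
    nth_rewrite 1 [hf]
    rw [hq', hp']
    ring
  have hq'0 : q' ≠ 0 := by
    intro h
    apply hu
    rw [hu', h, mul_zero]
  have hcop : IsCoprime p' q' := by
    obtain ⟨α, β, hαβ⟩ := Int.isCoprime_iff_gcd_eq_one.2 hpq
    refine ⟨α * a₁ + β * e₁, β * x - α * y, ?_⟩
    have : (α * a₁ + β * e₁) * p' + (β * x - α * y) * q'
        = (a₁ * x + e₁ * y) * (α * p + β * q) := by
      rw [hq', hp']
      ring
    rw [this, hxy, hαβ, one_mul]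
  obtain ⟨σ, hσ, hdσ⟩ := sign_split d₁
  obtain ⟨τ, hτ, hqτ⟩ := sign_split q'
  set d₀ := d₁.natAbs with hd₀
  set q₀ := q'.natAbs with hq₀
  have hd₀pos : 0 < d₀ := Int.natAbs_pos.2 hd₁0
  have hq₀pos : 0 < q₀ := Int.natAbs_pos.2 hq'0
  have hd₀Z : (d₀ : ℤ) ≠ 0 := by exact_mod_cast hd₀pos.ne'
  set k := b₁ / (d₀ : ℤ) with hk
  obtain ⟨b₀, hb₀⟩ : ∃ b₀ : ℕ, (b₀ : ℤ) = b₁ % (d₀ : ℤ) :=
    ⟨(b₁ % (d₀ : ℤ)).toNat, Int.toNat_of_nonneg (Int.emod_nonneg _ hd₀Z)⟩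
  have hb₀lt : b₀ < d₀ := by
    have h1 : b₁ % (d₀ : ℤ) < (d₀ : ℤ) := Int.emod_lt_of_pos _ (by exact_mod_cast hd₀pos)
    rw [← hb₀] at h1
    exact_mod_cast h1
  have hb₁' : b₁ = b₀ + k * d₀ := by
    rw [hb₀, hk]
    have := Int.emod_add_mul_ediv b₁ (d₀ : ℤ)
    linarith
  have hττ : τ * τ = 1 := by rcases hτ with h | h <;> rw [h] <;> norm_num
  have hσσ : σ * σ = 1 := by rcases hσ with h | h <;> rw [h] <;> norm_num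
  refine ⟨a₀, b₀, d₀, ha₀pos, hb₀lt, ?_, ?_, ?_, τ * (σ * p' - k * q'), q₀, ?_, hq₀pos, ?_, ?_⟩
  · rw [hdet, abs_mul, Nat.cast_mul, hd₀, Int.natCast_natAbs, abs_of_nonneg (Int.natCast_nonneg a₀)]
  · refine ⟨a₁, a₁ * k - y * σ, ?_, ?_⟩
    · rw [ha₁]
      ring
    · simp only
      have : b = a₁ * (b₀ + k * d₀) - y * (σ * d₀) := by
        rw [← hb₁', ← hdσ]
        exact hb
      rw [this]
      ring
  · refine ⟨e₁, e₁ * k + x * σ, ?_, ?_⟩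
    · rw [he₁]
      ring
    · simp only
      have : f = e₁ * (b₀ + k * d₀) + x * (σ * d₀) := by
        rw [← hb₁', ← hdσ]
        exact hf
      rw [this]
      ring
  · rw [← Int.isCoprime_iff_gcd_eq_one]
    obtain ⟨α, β, hαβ⟩ := hcop
    refine ⟨α * σ * τ, (β + α * σ * k) * τ, ?_⟩
    have e1 : α * σ * τ * (τ * (σ * p' - k * q')) + (β + α * σ * k) * τ * (q₀ : ℤ)
        = (σ * σ) * (τ * τ) * (α * p') - α * σ * k * q' * (τ * τ) + (β + α * σ * k) * (τ * q₀) := by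
      ring
    rw [e1, hσσ, hττ, ← hqτ]
    linarith
  · rw [hu', abs_mul, Nat.cast_mul, hq₀, Int.natCast_natAbs,
      abs_of_nonneg (Int.natCast_nonneg a₀)]
  · -- the real identity
    have hd₀R : (0:ℝ) < d₀ := by exact_mod_cast hd₀pos
    have hq₀R : (0:ℝ) < q₀ := by exact_mod_cast hq₀pos
    have huR : ((q : ℝ) * a - p * e) = a₀ * q' := by exact_mod_cast hu'
    have hvR : ((q : ℝ) * b - p * f) = q' * b₁ - p' * d₁ := by exact_mod_cast hv'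
    have hb₁R : (b₁ : ℝ) = b₀ + k * d₀ := by exact_mod_cast hb₁'
    have hd₁R : (d₁ : ℝ) = σ * d₀ := by exact_mod_cast hdσ
    have hq'R : (q' : ℝ) = τ * q₀ := by exact_mod_cast hqτ
    have hττR : (τ : ℝ) * τ = 1 := by exact_mod_cast hττ
    have hτabs : |(τ : ℝ)| = 1 := by
      rcases hτ with h | h <;> rw [h] <;> norm_num
    have e1 : ((a₀ : ℝ) * ξ + (b₀ : ℝ)) / (d₀ : ℝ)
        - ((τ * (σ * p' - k * q') : ℤ) : ℝ) / (q₀ : ℝ)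
        = τ * (((a₀ : ℝ) * q') * ξ + ((q' : ℝ) * b₁ - p' * d₁)) / ((d₀ : ℝ) * (q₀ : ℝ)) := by
      push_cast
      rw [hb₁R, hd₁R, hq'R]
      field_simp
      have : (τ : ℝ) ^ 2 = 1 := by rw [sq]; exact hττR
      ring_nf
      rw [this]
      ring
    rw [e1, huR, hvR, abs_div, abs_mul, hτabs, one_mul, abs_of_pos (mul_pos hd₀R hq₀R)]

/-- determinants of elements of `Lat` are divisible by the index -/
lemma det_dvd {a₀ b₀ d₀ : ℕ} {s t : ℤ × ℤ} (hs : s ∈ Lat a₀ b₀ d₀) (ht : t ∈ Lat a₀ b₀ d₀) :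
    ((a₀ * d₀ : ℕ) : ℤ) ∣ s.1 * t.2 - s.2 * t.1 := by
  obtain ⟨k, l, h1, h2⟩ := hs
  obtain ⟨k', l', h3, h4⟩ := ht
  refine ⟨k * l' - l * k', ?_⟩
  rw [h1, h2, h3, h4]
  push_cast
  ring

/-- the number of bases of a lattice in a box -/
lemma fiber_card (H N a₀ b₀ d₀ : ℕ) (hpos : 0 < a₀ * d₀) (hN : 2 * H ^ 2 < (N + 1) * (a₀ * d₀))
    (F : Finset (ℤ × ℤ × ℤ × ℤ))
    (hF : ∀ t ∈ F, |t.1| ≤ H ∧ |t.2.1| ≤ H ∧ |t.2.2.1| ≤ H ∧ |t.2.2.2| ≤ H ∧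
      |t.1 * t.2.2.2 - t.2.1 * t.2.2.1| = ((a₀ * d₀ : ℕ) : ℤ) ∧
      (t.1, t.2.1) ∈ Lat a₀ b₀ d₀ ∧ (t.2.2.1, t.2.2.2) ∈ Lat a₀ b₀ d₀) :
    F.card ≤ (2 * N + 1) ^ 4 := by
  classical
  rcases Finset.eq_empty_or_nonempty F with h | ⟨γ, hγ⟩
  · rw [h]
    simp
  obtain ⟨g1, g2, g3, g4, g5, g6, g7⟩ := hF γ hγ
  set D : ℤ := γ.1 * γ.2.2.2 - γ.2.1 * γ.2.2.1 with hD
  have hidx : (0:ℤ) < ((a₀ * d₀ : ℕ) : ℤ) := by exact_mod_cast hpos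
  have hD0 : D ≠ 0 := by
    intro h0
    rw [h0, abs_zero] at g5
    omega
  have hDdvd : D ∣ ((a₀ * d₀ : ℕ) : ℤ) := by
    rw [← g5]
    exact self_dvd_abs D
  -- the map
  let Φ : ℤ × ℤ × ℤ × ℤ → ℤ × ℤ × ℤ × ℤ := fun t =>
    ((t.1 * γ.2.2.2 - t.2.1 * γ.2.2.1) / D, (γ.1 * t.2.1 - γ.2.1 * t.1) / D,
      (t.2.2.1 * γ.2.2.2 - t.2.2.2 * γ.2.2.1) / D, (γ.1 * t.2.2.2 - γ.2.1 * t.2.2.1) / D)
  have hbound : ∀ z : ℤ, D ∣ z → |z| ≤ 2 * (H : ℤ) ^ 2 → z / D ∈ Finset.Icc (-(N : ℤ)) N := by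
    intro z hz hzb
    obtain ⟨w, rfl⟩ := hz
    rw [Int.mul_ediv_cancel_left _ hD0]
    rw [Finset.mem_Icc, ← abs_le]
    rw [abs_mul, g5] at hzb
    have hN' : 2 * (H : ℤ) ^ 2 < ((N : ℤ) + 1) * ((a₀ * d₀ : ℕ) : ℤ) := by exact_mod_cast hN
    by_contra hcon
    push Not at hcon
    have h1 : (N : ℤ) + 1 ≤ |w| := hcon
    have h2 : ((N : ℤ) + 1) * ((a₀ * d₀ : ℕ) : ℤ) ≤ |w| * ((a₀ * d₀ : ℕ) : ℤ) :=
      mul_le_mul_of_nonneg_right h1 hidx.le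
    linarith
  have hprod : ∀ x y z w : ℤ, |x| ≤ H → |y| ≤ H → |z| ≤ H → |w| ≤ H →
      |x * y - z * w| ≤ 2 * (H : ℤ) ^ 2 := by
    intro x y z w hx hy hz hw
    have h1 : |x * y| ≤ (H : ℤ) * H := by
      rw [abs_mul]
      exact mul_le_mul hx hy (abs_nonneg _) (Int.natCast_nonneg H)
    have h2 : |z * w| ≤ (H : ℤ) * H := by
      rw [abs_mul]
      exact mul_le_mul hz hw (abs_nonneg _) (Int.natCast_nonneg H)
    have h3 := abs_sub (x * y) (z * w)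
    nlinarith
  have hdv : ∀ s t : ℤ × ℤ, s ∈ Lat a₀ b₀ d₀ → t ∈ Lat a₀ b₀ d₀ → D ∣ s.1 * t.2 - s.2 * t.1 :=
    fun s t hs ht => hDdvd.trans (det_dvd hs ht)
  have hmaps : ∀ t ∈ F, Φ t ∈ (Finset.Icc (-(N : ℤ)) N) ×ˢ ((Finset.Icc (-(N : ℤ)) N) ×ˢ
      ((Finset.Icc (-(N : ℤ)) N) ×ˢ (Finset.Icc (-(N : ℤ)) N))) := by
    intro t ht
    obtain ⟨t1, t2, t3, t4, t5, t6, t7⟩ := hF t ht
    simp only [Φ, Finset.mem_product]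
    refine ⟨hbound _ (hdv (t.1, t.2.1) (γ.2.2.1, γ.2.2.2) t6 g7) (hprod _ _ _ _ t1 g4 t2 g3),
      hbound _ (hdv (γ.1, γ.2.1) (t.1, t.2.1) g6 t6) (hprod _ _ _ _ g1 t2 g2 t1),
      hbound _ (hdv (t.2.2.1, t.2.2.2) (γ.2.2.1, γ.2.2.2) t7 g7) (hprod _ _ _ _ t3 g4 t4 g3),
      hbound _ (hdv (γ.1, γ.2.1) (t.2.2.1, t.2.2.2) g6 t7) (hprod _ _ _ _ g1 t4 g2 t3)⟩
  have hinj : Set.InjOn Φ F := by
    intro s hs t ht hst
    obtain ⟨s1, s2, s3, s4, s5, s6, s7⟩ := hF s hs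
    obtain ⟨t1, t2, t3, t4, t5, t6, t7⟩ := hF t ht
    simp only [Φ, Prod.mk.injEq] at hst
    obtain ⟨m1, m2, m3, m4⟩ := hst
    have r1 := (Int.ediv_left_inj (hdv (s.1, s.2.1) (γ.2.2.1, γ.2.2.2) s6 g7)
      (hdv (t.1, t.2.1) (γ.2.2.1, γ.2.2.2) t6 g7)).1 m1
    have r2 := (Int.ediv_left_inj (hdv (γ.1, γ.2.1) (s.1, s.2.1) g6 s6)
      (hdv (γ.1, γ.2.1) (t.1, t.2.1) g6 t6)).1 m2
    have r3 := (Int.ediv_left_inj (hdv (s.2.2.1, s.2.2.2) (γ.2.2.1, γ.2.2.2) s7 g7)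
      (hdv (t.2.2.1, t.2.2.2) (γ.2.2.1, γ.2.2.2) t7 g7)).1 m3
    have r4 := (Int.ediv_left_inj (hdv (γ.1, γ.2.1) (s.2.2.1, s.2.2.2) g6 s7)
      (hdv (γ.1, γ.2.1) (t.2.2.1, t.2.2.2) g6 t7)).1 m4
    simp only at r1 r2 r3 r4
    have c1 : s.1 = t.1 := by
      apply mul_left_cancel₀ hD0
      rw [hD]
      linear_combination γ.1 * r1 + γ.2.2.1 * r2
    have c2 : s.2.1 = t.2.1 := by
      apply mul_left_cancel₀ hD0
      rw [hD]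
      linear_combination γ.2.1 * r1 + γ.2.2.2 * r2
    have c3 : s.2.2.1 = t.2.2.1 := by
      apply mul_left_cancel₀ hD0
      rw [hD]
      linear_combination γ.1 * r3 + γ.2.2.1 * r4
    have c4 : s.2.2.2 = t.2.2.2 := by
      apply mul_left_cancel₀ hD0
      rw [hD]
      linear_combination γ.2.1 * r3 + γ.2.2.2 * r4
    exact Prod.ext c1 (Prod.ext c2 (Prod.ext c3 c4))
  have hcard := Finset.card_le_card_of_injOn Φ hmaps hinj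
  refine hcard.trans (le_of_eq ?_)
  rw [Finset.card_product, Finset.card_product, Finset.card_product, Int.card_Icc]
  have : ((N : ℤ) + 1 - -(N : ℤ)).toNat = 2 * N + 1 := by omega
  rw [this]
  ring

end Pool.Agent.Helper95.Mob
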