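import Pool.Agent.Helper95.Mob.Total
import Pool.Agent.Helper95.Mob.Box

/-!
# Lang's inequality for almost all images of a number under integer matrices
-/

set_option autoImplicit false

namespace Pool.Agent.Helper95.Mob

open Finset Filter Topology
open Pool.Agent.Helper95.Div (bet W Z W_pos Z_nonneg sum_le_Z bet_pos eventually_rpow_ge)

open Classical in
/-- the matrices of size `H` whose image violates the inequality for some `q ≤ X` -/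
noncomputable def BadM (ε c X ξ : ℝ) (H : ℕ) : Finset (ℤ × ℤ × ℤ × ℤ) :=
  (box H).filter (fun t => ∃ (p : ℤ) (q : ℕ), 2 ≤ q ∧ (q : ℝ) ≤ X ∧
    |((t.1 : ℝ) * ξ + t.2.1) / ((t.2.2.1 : ℝ) * ξ + t.2.2.2) - (p : ℝ) / (q : ℝ)|
      ≤ c / ((q : ℝ) ^ 2 * (Real.log (q : ℝ)) ^ (1 + ε)))

/-- the count in terms of the scales -/
lemma badM_card {ε c r ξ X G : ℝ} (hε : 0 < ε) (hc : 0 < c) (hr : 0 < r)
    (hcW : 4 * (c * W ε) ≤ r ^ 2) {H I : ℕ} (hH : 1 ≤ H) (hξ : |ξ| ≤ 1) (hG0 : 0 ≤ G)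
    (hI : ∀ i : ℕ, (2:ℝ) ^ i ≤ X → i ≤ I)
    (hG : ∀ i : ℕ, (2:ℝ) ^ i ≤ X → ∀ a₀ d₀ g : ℕ, 0 < a₀ → 0 < d₀ → 0 < g →
      a₀ * d₀ ≤ 2 * H ^ 2 → G < g →
      T ((a₀ : ℝ) * ξ) d₀ g (Qb r H i d₀) (rb (bet ε c i) H d₀) = ∅) :
    ((BadM ε c X ξ H).card : ℝ) ≤ 3 * ((2 * (r * H) + 1) * (2 * H + 1) ^ 3)
      + ((2 * ⌊2 / r ^ 2⌋₊ + 1 : ℕ) : ℝ) ^ 4 *
        (((I : ℝ) + 1) * ((∑ D ∈ Finset.Ioc 0 (2 * H ^ 2), (D.divisors.card : ℝ) ^ 2) * G)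
          + 2304 * (c * W ε * Z ε) / r ^ 2 * (H : ℝ) ^ 4) := by
  classical
  have hHR : (0:ℝ) < H := by exact_mod_cast hH
  set B := BadM ε c X ξ H with hB
  set M : ℕ := (2 * ⌊2 / r ^ 2⌋₊ + 1) ^ 4 with hM
  set S₂ : ℝ := ∑ D ∈ Finset.Ioc 0 (2 * H ^ 2), (D.divisors.card : ℝ) ^ 2 with hS₂
  have hS₂0 : 0 ≤ S₂ := Finset.sum_nonneg (fun D _ => by positivity)
  clear_value M S₂
  let S1 := B.filter (fun t => |(t.2.2.1 : ℝ) * ξ + t.2.2.2| ≤ r * H)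
  let S2 := B.filter (fun t => |(t.1 : ℝ) * t.2.2.2 - t.2.1 * t.2.2.1| ≤ r ^ 2 * (H : ℝ) ^ 2)
  let F : ℕ → Finset (ℤ × ℤ × ℤ × ℤ) := fun i => B.filter (fun t => (2:ℝ) ^ i ≤ X ∧
      r * H ≤ |(t.2.2.1 : ℝ) * ξ + t.2.2.2| ∧
      r ^ 2 * (H : ℝ) ^ 2 ≤ |(t.1 : ℝ) * t.2.2.2 - t.2.1 * t.2.2.1| ∧
      ∃ (p : ℤ) (q : ℕ), Int.gcd p q = 1 ∧ 2 ^ i ≤ q ∧ q < 2 ^ (i + 1) ∧
        |((t.1 : ℝ) * ξ + t.2.1) / ((t.2.2.1 : ℝ) * ξ + t.2.2.2) - (p : ℝ) / (q : ℝ)|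
          ≤ bet ε c i)
  have hBbox : B ⊆ box H := Finset.filter_subset _ _
  have hsub : B ⊆ (S1 ∪ S2) ∪ (Finset.range (I + 1)).biUnion F := by
    intro t ht
    rw [Finset.mem_union]
    by_cases h1 : |(t.2.2.1 : ℝ) * ξ + t.2.2.2| ≤ r * H
    · exact Or.inl (Finset.mem_union_left _ (Finset.mem_filter.2 ⟨ht, h1⟩))
    by_cases h2 : |(t.1 : ℝ) * t.2.2.2 - t.2.1 * t.2.2.1| ≤ r ^ 2 * (H : ℝ) ^ 2
    · exact Or.inl (Finset.mem_union_right _ (Finset.mem_filter.2 ⟨ht, h2⟩))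
    push Not at h1 h2
    have h3 := (Finset.mem_filter.1 ht).2
    obtain ⟨i, hi, h4⟩ := scale_of_bad hε hc h3
    refine Or.inr ?_
    rw [Finset.mem_biUnion]
    exact ⟨i, Finset.mem_range.2 (Nat.lt_succ_of_le (hI i hi)),
      Finset.mem_filter.2 ⟨ht, hi, h1.le, h2.le, h4⟩⟩
  have hS1 : (S1.card : ℝ) ≤ (2 * (r * H) + 1) * (2 * H + 1) ^ 3 :=
    small_y_card (by positivity) H S1 ((Finset.filter_subset _ _).trans hBbox)
      (fun t ht => (Finset.mem_filter.1 ht).2)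
  have hS2 : (S2.card : ℝ) ≤ 2 * ((2 * (r * H) + 1) * (2 * H + 1) ^ 3) :=
    small_det_card hr hH S2 ((Finset.filter_subset _ _).trans hBbox)
      (fun t ht => (Finset.mem_filter.1 ht).2)
  have hFi : ∀ i ∈ Finset.range (I + 1), ((F i).card : ℝ) ≤ (M : ℝ) * (S₂ * G
      + 2304 * (c * W ε) / r ^ 2 * (H : ℝ) ^ 4 * (1 / ((i : ℝ) + 1) ^ (1 + ε))) := by
    intro i _
    have hW := W_pos ε
    by_cases hiX : (2:ℝ) ^ i ≤ X
    · have h1 : (F i).card ≤ (BK ξ r (bet ε c i) H i).card * M := by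
        rw [hM]
        apply scale_count hε hc hr hcW hH hξ
        intro t ht
        obtain ⟨htB, _, h2, h3, h4⟩ := Finset.mem_filter.1 ht
        obtain ⟨a1, a2, a3, a4⟩ := mem_box.1 (hBbox htB)
        exact ⟨a1, a2, a3, a4, h2, h3, h4⟩
      have h2 := BK_card (ξ := ξ) (G := G) hr (bet_pos hc i).le hH hG0 (hG i hiX)
      rw [← hS₂] at h2
      have h3 : ((F i).card : ℝ) ≤ ((BK ξ r (bet ε c i) H i).card : ℝ) * M := by
        exact_mod_cast h1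
      refine h3.trans ?_
      rw [mul_comm]
      apply mul_le_mul_of_nonneg_left _ (Nat.cast_nonneg M)
      refine h2.trans (le_of_eq ?_)
      have e : (4:ℝ) ^ i * bet ε c i = c * W ε * (1 / ((i : ℝ) + 1) ^ (1 + ε)) := by
        unfold bet
        have : (0:ℝ) < ((i : ℝ) + 1) ^ (1 + ε) := by positivity
        field_simp
      rw [e]
      ring
    · have : F i = ∅ := by
        rw [Finset.eq_empty_iff_forall_notMem]
        intro t ht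
        exact hiX (Finset.mem_filter.1 ht).2.1
      rw [this, Finset.card_empty, Nat.cast_zero]
      positivity
  have hcard : (B.card : ℝ) ≤ (S1.card : ℝ) + (S2.card : ℝ)
      + ∑ i ∈ Finset.range (I + 1), ((F i).card : ℝ) := by
    have h1 : B.card ≤ S1.card + S2.card + ∑ i ∈ Finset.range (I + 1), (F i).card := by
      refine (Finset.card_le_card hsub).trans ((Finset.card_union_le _ _).trans ?_)
      exact add_le_add (Finset.card_union_le _ _) Finset.card_biUnion_le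
    exact_mod_cast h1
  have hsum : ∑ i ∈ Finset.range (I + 1), ((F i).card : ℝ)
      ≤ (M : ℝ) * (((I : ℝ) + 1) * (S₂ * G) + 2304 * (c * W ε * Z ε) / r ^ 2 * (H : ℝ) ^ 4) := by
    refine (Finset.sum_le_sum hFi).trans ?_
    rw [← Finset.mul_sum, Finset.sum_add_distrib, Finset.sum_const, Finset.card_range, nsmul_eq_mul,
      ← Finset.mul_sum]
    apply mul_le_mul_of_nonneg_left _ (Nat.cast_nonneg M)
    have h1 := sum_le_Z hε (Finset.range (I + 1))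
    have hW := W_pos ε
    have h2 : 2304 * (c * W ε) / r ^ 2 * (H : ℝ) ^ 4
        * ∑ i ∈ Finset.range (I + 1), 1 / ((i : ℝ) + 1) ^ (1 + ε)
        ≤ 2304 * (c * W ε) / r ^ 2 * (H : ℝ) ^ 4 * Z ε :=
      mul_le_mul_of_nonneg_left h1 (by positivity)
    have h3 : 2304 * (c * W ε) / r ^ 2 * (H : ℝ) ^ 4 * Z ε
        = 2304 * (c * W ε * Z ε) / r ^ 2 * (H : ℝ) ^ 4 := by ring
    push_cast
    linarith
  have hMcast : (M : ℝ) = ((2 * ⌊2 / r ^ 2⌋₊ + 1 : ℕ) : ℝ) ^ 4 := by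
    rw [hM, Nat.cast_pow]
  rw [← hMcast]
  linarith

/-- the smallness condition of `T_empty` -/
lemma small_bound {r c W' τ A κ β : ℝ} (hr : 0 < r) (hcW : 0 ≤ c * W') (hτ : 1 ≤ τ)
    {H i g : ℕ} (hH : 1 ≤ H) (hi : (2:ℝ) ^ i ≤ (H : ℝ) ^ A) (hg : (H : ℝ) ^ (2 - κ) < g)
    (hβ0 : 0 ≤ β) (hβ : β ≤ c * W' / 4 ^ i) :
    (6 * 2 ^ i * H / (r * g)) ^ τ * (48 * 2 ^ i * H * β / (r * g))
      ≤ (6 / r) ^ τ * (48 * (c * W') / r) * (H : ℝ) ^ (A * (τ - 1) - (1 - κ) * (τ + 1)) := by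
  have hHR : (0:ℝ) < H := by exact_mod_cast hH
  set G := (H : ℝ) ^ (2 - κ) with hG
  have hG0 : 0 < G := by positivity
  have hgR : (0:ℝ) < g := lt_trans hG0 hg
  have h2 : (0:ℝ) < 2 ^ i := by positivity
  have h1 : (6 * 2 ^ i * H / (r * g)) ^ τ ≤ (6 / r) ^ τ * ((2:ℝ) ^ i) ^ τ * ((H : ℝ) / G) ^ τ := by
    rw [← Real.mul_rpow (by positivity) (by positivity),
      ← Real.mul_rpow (by positivity) (by positivity)]
    apply Real.rpow_le_rpow (by positivity) _ (by linarith)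
    have e : 6 / r * 2 ^ i * ((H : ℝ) / G) = 6 * 2 ^ i * H / (r * G) := by field_simp
    rw [e]
    apply div_le_div_of_nonneg_left (by positivity) (by positivity)
    exact mul_le_mul_of_nonneg_left hg.le hr.le
  have h3 : 48 * 2 ^ i * H * β / (r * g) ≤ 48 * (c * W') / r * ((H : ℝ) / G) * ((2:ℝ) ^ i)⁻¹ := by
    have e1 : 48 * (c * W') / r * ((H : ℝ) / G) * ((2:ℝ) ^ i)⁻¹
        = 48 * 2 ^ i * H * (c * W' / 4 ^ i) / (r * G) := by
      have : (4:ℝ) ^ i = 2 ^ i * 2 ^ i := by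
        rw [← mul_pow]
        norm_num
      rw [this]
      field_simp
    rw [e1]
    apply div_le_div₀ (by positivity) _ (by positivity)
      (mul_le_mul_of_nonneg_left hg.le hr.le)
    exact mul_le_mul_of_nonneg_left hβ (by positivity)
  have h4 : (6 * 2 ^ i * H / (r * g)) ^ τ * (48 * 2 ^ i * H * β / (r * g))
      ≤ ((6 / r) ^ τ * ((2:ℝ) ^ i) ^ τ * ((H : ℝ) / G) ^ τ)
        * (48 * (c * W') / r * ((H : ℝ) / G) * ((2:ℝ) ^ i)⁻¹) :=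
    mul_le_mul h1 h3 (by positivity) (by positivity)
  refine h4.trans ?_
  have e2 : ((6 / r) ^ τ * ((2:ℝ) ^ i) ^ τ * ((H : ℝ) / G) ^ τ)
        * (48 * (c * W') / r * ((H : ℝ) / G) * ((2:ℝ) ^ i)⁻¹)
      = (6 / r) ^ τ * (48 * (c * W') / r) * (((2:ℝ) ^ i) ^ (τ - 1) * ((H : ℝ) / G) ^ (τ + 1)) := by
    rw [Real.rpow_sub_one h2.ne', Real.rpow_add_one (by positivity)]
    field_simp
  rw [e2]
  apply mul_le_mul_of_nonneg_left _ (by positivity)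
  have h5 : ((2:ℝ) ^ i) ^ (τ - 1) ≤ (H : ℝ) ^ (A * (τ - 1)) := by
    rw [Real.rpow_mul hHR.le]
    exact Real.rpow_le_rpow h2.le hi (by linarith)
  have h6 : ((H : ℝ) / G) ^ (τ + 1) = (H : ℝ) ^ (-((1 - κ) * (τ + 1))) := by
    have : (H : ℝ) / G = (H : ℝ) ^ (-(1 - κ)) := by
      rw [hG]
      nth_rewrite 1 [← Real.rpow_one (H : ℝ)]
      rw [← Real.rpow_sub hHR]
      congr 1
      ring
    rw [this, ← Real.rpow_mul hHR.le]
    congr 1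
    ring
  rw [h6]
  calc ((2:ℝ) ^ i) ^ (τ - 1) * (H : ℝ) ^ (-((1 - κ) * (τ + 1)))
      ≤ (H : ℝ) ^ (A * (τ - 1)) * (H : ℝ) ^ (-((1 - κ) * (τ + 1))) :=
        mul_le_mul_of_nonneg_right h5 (by positivity)
    _ = (H : ℝ) ^ (A * (τ - 1) - (1 - κ) * (τ + 1)) := by
        rw [← Real.rpow_add hHR]
        congr 1

end Pool.Agent.Helper95.Mob
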