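import Pool.Agent.Helper95.Mob.Key

/-!
# From a matrix with a badly behaved image to a bad Hecke point
-/

set_option autoImplicit false

namespace Pool.Agent.Helper95.Mob

open Finset
open Pool.Agent.Helper95.Div (bet W Z W_pos bet_pos)

/-- denominators at scale `i` -/
noncomputable def Qb (r : ℝ) (H i d₀ : ℕ) : ℝ := 3 * 2 ^ i * d₀ / (r * H)

/-- radius at scale `i` -/
noncomputable def rb (β : ℝ) (H d₀ : ℕ) : ℝ := 16 * (H : ℝ) ^ 2 * β / (d₀ : ℝ) ^ 2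

lemma bet_le {ε c : ℝ} (hε : 0 < ε) (hc : 0 < c) (i : ℕ) : bet ε c i ≤ c * W ε / 4 ^ i := by
  unfold bet
  have hW := W_pos ε
  apply div_le_div_of_nonneg_left (by positivity) (by positivity)
  have h1 : (1:ℝ) ≤ ((i : ℝ) + 1) ^ (1 + ε) := by
    apply Real.one_le_rpow
    · have : (0:ℝ) ≤ i := Nat.cast_nonneg i
      linarith
    · linarith
  have h2 : (0:ℝ) < 4 ^ i := by positivity
  nlinarith

lemma scale_key {ε c r ξ : ℝ} (hε : 0 < ε) (hc : 0 < c) (hr : 0 < r) (hcW : 4 * (c * W ε) ≤ r ^ 2)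
    {H : ℕ} (hH : 1 ≤ H) (hξ : |ξ| ≤ 1) {a b e f : ℤ} (he : |e| ≤ (H : ℤ)) (hf : |f| ≤ (H : ℤ))
    (hy : r * H ≤ |(e : ℝ) * ξ + f|) (hD : r ^ 2 * (H : ℝ) ^ 2 ≤ |(a : ℝ) * f - b * e|)
    {i : ℕ} {p : ℤ} {q : ℕ} (hpq : Int.gcd p q = 1) (hq1 : 2 ^ i ≤ q) (hq2 : q < 2 ^ (i + 1))
    (happ : |((a : ℝ) * ξ + b) / ((e : ℝ) * ξ + f) - (p : ℝ) / (q : ℝ)| ≤ bet ε c i) :
    ∃ a₀ b₀ d₀ : ℕ, 0 < a₀ ∧ ((a₀ * d₀ : ℕ) : ℤ) = |a * f - b * e| ∧
      (a, b) ∈ Lat a₀ b₀ d₀ ∧ (e, f) ∈ Lat a₀ b₀ d₀ ∧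
      b₀ ∈ J ((a₀ : ℝ) * ξ) d₀ (Qb r H i d₀) (rb (bet ε c i) H d₀) := by
  have hHR : (0:ℝ) < H := by exact_mod_cast hH
  have hβ := bet_pos (ε := ε) hc i
  have hβle : bet ε c i ≤ c * W ε := by
    refine (bet_le hε hc i).trans ?_
    have hW := W_pos ε
    apply div_le_self (by positivity)
    exact one_le_pow₀ (by norm_num)
  set β := bet ε c i with hβdef
  have hq0 : 0 < q := lt_of_lt_of_le (by positivity) hq1
  have hqR : (0:ℝ) < q := by exact_mod_cast hq0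
  have hq1R : (2:ℝ) ^ i ≤ q := by exact_mod_cast hq1
  have hq2R : (q:ℝ) < 2 * 2 ^ i := by
    have : (q:ℝ) < (2:ℝ) ^ (i + 1) := by exact_mod_cast hq2
    rw [pow_succ] at this
    linarith
  set y := (e : ℝ) * ξ + f with hydef
  have hypos : 0 < |y| := lt_of_lt_of_le (by positivity) hy
  have hy0 : y ≠ 0 := abs_pos.1 hypos
  have heR : |(e:ℝ)| ≤ H := by exact_mod_cast he
  have hfR : |(f:ℝ)| ≤ H := by exact_mod_cast hf
  have hyle : |y| ≤ 2 * H := by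
    calc |y| ≤ |(e:ℝ) * ξ| + |(f:ℝ)| := abs_add_le _ _
      _ ≤ H * 1 + H := by
        rw [abs_mul]
        exact add_le_add (mul_le_mul heR hξ (abs_nonneg _) hHR.le) hfR
      _ = 2 * H := by ring
  set D := |(a : ℝ) * f - b * e| with hDdef
  have hDpos : 0 < D := lt_of_lt_of_le (by positivity) hD
  set u := (q : ℝ) * a - p * e with hu
  set θ := ((q : ℝ) * a - p * e) * ξ + ((q : ℝ) * b - p * f) with hθ
  have hθeq : θ = q * y * (((a : ℝ) * ξ + b) / y - (p : ℝ) / (q : ℝ)) := by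
    rw [hθ, hydef]
    rw [hydef] at hy0
    field_simp
    ring
  have hθle : |θ| ≤ q * |y| * β := by
    rw [hθeq, abs_mul, abs_mul, abs_of_pos hqR]
    exact mul_le_mul_of_nonneg_left happ (by positivity)
  have hkey : u * y - θ * e = q * ((a : ℝ) * f - b * e) := by
    rw [hu, hθ, hydef]
    ring
  have hθe : |θ * e| ≤ q * D / 2 := by
    rw [abs_mul]
    have h1 : |θ| * |(e:ℝ)| ≤ (q * |y| * β) * H :=
      mul_le_mul hθle heR (abs_nonneg _) (by positivity)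
    have h2 : (q * |y| * β) * H ≤ (q * (2 * H) * (c * W ε)) * H := by
      have hW := W_pos ε
      gcongr
    have h3 : (q * (2 * H) * (c * W ε)) * H ≤ q * D / 2 := by
      have : 2 * (c * W ε) * (H:ℝ) ^ 2 ≤ D / 2 := by nlinarith [sq_nonneg (H:ℝ)]
      nlinarith
    linarith
  have hqD : |(q:ℝ) * ((a : ℝ) * f - b * e)| = q * D := by
    rw [abs_mul, abs_of_pos hqR]
  have huy1 : q * D / 2 ≤ |u| * |y| := by
    have h1 : |q * ((a : ℝ) * f - b * e)| ≤ |u * y| + |θ * e| := by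
      rw [← hkey]
      exact abs_sub _ _
    rw [hqD, abs_mul u y] at h1
    linarith
  have huy2 : |u| * |y| ≤ 3 * (q * D) / 2 := by
    have h1 : |u * y| ≤ |q * ((a : ℝ) * f - b * e)| + |θ * e| := by
      have : u * y = q * ((a : ℝ) * f - b * e) + θ * e := by rw [← hkey]; ring
      rw [this]
      exact abs_add_le _ _
    rw [hqD, abs_mul u y] at h1
    linarith
  -- bounds for `|u|`
  have hu1 : 2 ^ i * D ≤ 4 * H * |u| := by
    have h1 : |u| * |y| ≤ |u| * (2 * H) := mul_le_mul_of_nonneg_left hyle (abs_nonneg _)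
    have h2 : 2 ^ i * D ≤ q * D := mul_le_mul_of_nonneg_right hq1R hDpos.le
    linarith
  have hu2 : r * H * |u| < 3 * 2 ^ i * D := by
    have h1 : |u| * (r * H) ≤ |u| * |y| := mul_le_mul_of_nonneg_left hy (abs_nonneg _)
    have h2 : q * D < (2 * 2 ^ i) * D := mul_lt_mul_of_pos_right hq2R hDpos
    linarith
  have hupos : 0 < |u| := by
    by_contra hcon
    have : |u| ≤ 0 := not_lt.1 hcon
    have h2 : 0 < (2:ℝ) ^ i * D := by positivity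
    have h3 : 4 * (H:ℝ) * |u| ≤ 0 := mul_nonpos_of_nonneg_of_nonpos (by positivity) this
    linarith
  have hDne : a * f - b * e ≠ 0 := by
    intro h0
    have : ((a * f - b * e : ℤ) : ℝ) = 0 := by rw [h0]; simp
    push_cast at this
    rw [hDdef, this, abs_zero] at hDpos
    exact lt_irrefl _ hDpos
  have hune : (q : ℤ) * a - p * e ≠ 0 := by
    intro h0
    have : (((q : ℤ) * a - p * e : ℤ) : ℝ) = 0 := by rw [h0]; simp
    push_cast at this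
    rw [hu, this, abs_zero] at hupos
    exact lt_irrefl _ hupos
  obtain ⟨a₀, b₀, d₀, ha₀, hb₀, hidx, hL1, hL2, p₀, q₀, hcop, hq₀, hq₀u, hval⟩ :=
    key a b e f hDne p q hpq ξ hune
  refine ⟨a₀, b₀, d₀, ha₀, hidx, hL1, hL2, hb₀, p₀, q₀, hcop, hq₀, ?_, ?_⟩
  · -- the denominator
    have ha₀R : (0:ℝ) < a₀ := by exact_mod_cast ha₀
    have e1 : (a₀ : ℝ) * q₀ = |u| := by
      have : (((a₀ * q₀ : ℕ) : ℤ) : ℝ) = ((|(q : ℤ) * a - p * e| : ℤ) : ℝ) := by rw [hq₀u]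
      push_cast at this
      exact this
    have e2 : (a₀ : ℝ) * d₀ = D := by
      have : (((a₀ * d₀ : ℕ) : ℤ) : ℝ) = ((|a * f - b * e| : ℤ) : ℝ) := by rw [hidx]
      push_cast at this
      exact this
    unfold Qb
    rw [lt_div_iff₀ (by positivity)]
    rw [← e1, ← e2] at hu2
    have : (a₀ : ℝ) * (q₀ * (r * H)) < a₀ * (3 * 2 ^ i * d₀) := by linarith
    exact lt_of_mul_lt_mul_left this ha₀R.le
  · have ha₀R : (0:ℝ) < a₀ := by exact_mod_cast ha₀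
    have hd₀ : 0 < d₀ := lt_of_le_of_lt (Nat.zero_le _) hb₀
    have hd₀R : (0:ℝ) < d₀ := by exact_mod_cast hd₀
    have hq₀R : (0:ℝ) < q₀ := by exact_mod_cast hq₀
    have e1 : (a₀ : ℝ) * q₀ = |u| := by
      have : (((a₀ * q₀ : ℕ) : ℤ) : ℝ) = ((|(q : ℤ) * a - p * e| : ℤ) : ℝ) := by rw [hq₀u]
      push_cast at this
      exact this
    have e2 : (a₀ : ℝ) * d₀ = D := by
      have : (((a₀ * d₀ : ℕ) : ℤ) : ℝ) = ((|a * f - b * e| : ℤ) : ℝ) := by rw [hidx]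
      push_cast at this
      exact this
    rw [hval]
    change |θ| / _ ≤ _
    unfold rb
    rw [div_le_div_iff₀ (by positivity) (by positivity)]
    have h1 : (2:ℝ) ^ i * d₀ ≤ 4 * H * q₀ := by
      rw [← e1, ← e2] at hu1
      have : (a₀ : ℝ) * (2 ^ i * d₀) ≤ a₀ * (4 * H * q₀) := by linarith
      exact le_of_mul_le_mul_left this ha₀R
    have h2 : |θ| ≤ (2 * 2 ^ i) * (2 * H) * β := by
      refine hθle.trans ?_
      gcongr
    calc |θ| * (d₀ : ℝ) ^ 2 ≤ ((2 * 2 ^ i) * (2 * H) * β) * (d₀ : ℝ) ^ 2 := by gcongr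
      _ = (4 * H * β * d₀) * (2 ^ i * d₀) := by ring
      _ ≤ (4 * H * β * d₀) * (4 * H * q₀) := by gcongr
      _ = 16 * (H : ℝ) ^ 2 * β * (d₀ * q₀) := by ring

/-- for large `g` there is no good approximation -/
lemma T_empty {r ξ τ c₀ β : ℝ} (hr : 0 < r) (hβ : 0 ≤ β) (hτ : 0 ≤ τ)
    (hξ : ∀ (n : ℕ) (k : ℤ), 1 ≤ n → c₀ / (n : ℝ) ^ τ ≤ |(n : ℝ) * ξ - k|)
    {H i a₀ d₀ g : ℕ} (hH : 1 ≤ H) (ha₀ : 0 < a₀) (hd₀ : 0 < d₀) (hg : 0 < g)
    (hidx : a₀ * d₀ ≤ 2 * H ^ 2)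
    (hsmall : (6 * 2 ^ i * H / (r * g)) ^ τ * (48 * 2 ^ i * H * β / (r * g)) < c₀) :
    T ((a₀ : ℝ) * ξ) d₀ g (Qb r H i d₀) (rb β H d₀) = ∅ := by
  rw [Set.eq_empty_iff_forall_notMem]
  rintro ⟨k, n⟩ ⟨h1, h2, h3, h4⟩
  simp only at h1 h2 h3 h4
  have hHR : (0:ℝ) < H := by exact_mod_cast hH
  have ha₀R : (0:ℝ) < a₀ := by exact_mod_cast ha₀
  have hd₀R : (0:ℝ) < d₀ := by exact_mod_cast hd₀
  have hgR : (0:ℝ) < g := by exact_mod_cast hg
  have hnR : (0:ℝ) < n := by exact_mod_cast h1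
  have hidxR : (a₀ : ℝ) * d₀ ≤ 2 * (H : ℝ) ^ 2 := by exact_mod_cast hidx
  unfold Qb at h3
  rw [lt_div_iff₀ (by positivity)] at h3
  unfold rb at h4
  have h5 : |((n * a₀ : ℕ) : ℝ) * ξ - k| ≤ 48 * 2 ^ i * H * β / (r * g) := by
    have e1 : ((n * a₀ : ℕ) : ℝ) * ξ - k = n * ((a₀ : ℝ) * ξ - k / n) := by
      push_cast
      field_simp
    rw [e1, abs_mul, abs_of_pos hnR]
    have h6 : (n : ℝ) * |(a₀ : ℝ) * ξ - k / n| ≤ n * (16 * (H : ℝ) ^ 2 * β / (d₀ : ℝ) ^ 2 * d₀) :=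
      mul_le_mul_of_nonneg_left h4 hnR.le
    refine h6.trans ?_
    rw [le_div_iff₀ (by positivity)]
    have e2 : (n : ℝ) * (16 * (H : ℝ) ^ 2 * β / (d₀ : ℝ) ^ 2 * d₀) * (r * g)
        = (g * n * (r * H)) * (16 * H * β / d₀) := by
      field_simp
    rw [e2]
    have e3 : 48 * 2 ^ i * (H : ℝ) * β = (3 * 2 ^ i * d₀) * (16 * H * β / d₀) := by
      field_simp
      ring
    rw [e3]
    exact mul_le_mul_of_nonneg_right h3.le (by positivity)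
  have h7 : ((n * a₀ : ℕ) : ℝ) ≤ 6 * 2 ^ i * H / (r * g) := by
    rw [le_div_iff₀ (by positivity)]
    push_cast
    have : (a₀ : ℝ) * (g * n * (r * H)) ≤ a₀ * (3 * 2 ^ i * d₀) :=
      mul_le_mul_of_nonneg_left h3.le ha₀R.le
    have h8 : (a₀ : ℝ) * (3 * 2 ^ i * d₀) ≤ 3 * 2 ^ i * (2 * (H : ℝ) ^ 2) := by
      have h9 : (0:ℝ) < 3 * 2 ^ i := by positivity
      nlinarith
    have h10 : (n * a₀ * (r * g)) * (H:ℝ) ≤ (6 * 2 ^ i * H) * H := by nlinarith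
    exact le_of_mul_le_mul_right h10 hHR
  have hna : 1 ≤ n * a₀ := Nat.mul_pos h1 ha₀
  have hnaR : (0:ℝ) < ((n * a₀ : ℕ) : ℝ) := by exact_mod_cast hna
  have h11 := hξ (n * a₀) k hna
  rw [div_le_iff₀ (by positivity)] at h11
  have h12 : |((n * a₀ : ℕ) : ℝ) * ξ - k| * ((n * a₀ : ℕ) : ℝ) ^ τ
      ≤ (48 * 2 ^ i * H * β / (r * g)) * (6 * 2 ^ i * H / (r * g)) ^ τ := by
    apply mul_le_mul h5 _ (by positivity) (by positivity)
    exact Real.rpow_le_rpow hnaR.le h7 hτ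
  linarith

end Pool.Agent.Helper95.Mob
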