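import Pool.Agent.Helper95.Mob.Scale

/-!
# Summing over the determinants
-/

set_option autoImplicit false

namespace Pool.Agent.Helper95.Mob

open Finset
open Pool.Agent.Helper95.Div (bet W Z W_pos bet_pos)

lemma sum_inv_sq (N : ℕ) : ∑ k ∈ Finset.Ioc 0 N, 1 / (k : ℝ) ^ 2 ≤ 2 := by
  rcases Nat.eq_zero_or_pos N with h | h
  · subst h
    simp
  · have h1 : ∀ n : ℕ, 1 ≤ n → ∑ k ∈ Finset.Ioc 0 n, 1 / (k : ℝ) ^ 2 ≤ 2 - 1 / (n : ℝ) := by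
      intro n hn
      induction n, hn using Nat.le_induction with
      | base => norm_num
      | succ n hn ih =>
        rw [Finset.sum_Ioc_succ_top (Nat.zero_le n)]
        have hnR : (0:ℝ) < n := by exact_mod_cast hn
        have e : 1 / ((n + 1 : ℕ) : ℝ) ^ 2 ≤ 1 / (n : ℝ) - 1 / ((n + 1 : ℕ) : ℝ) := by
          push_cast
          rw [div_sub_div _ _ hnR.ne' (by positivity), div_le_div_iff₀ (by positivity) (by positivity)]
          nlinarith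
        linarith
    have h2 := h1 N h
    have : (0:ℝ) ≤ 1 / N := by positivity
    linarith

/-- `∑_{D ≤ N} ∑_{d ∣ D} σ(d) ≤ 2 N²` -/
lemma sum_sigma (N : ℕ) :
    ∑ D ∈ Finset.Ioc 0 N, ∑ d ∈ D.divisors, ((ArithmeticFunction.sigma 1 d : ℕ) : ℝ)
      ≤ 2 * (N : ℝ) ^ 2 := by
  have h1 : ∑ D ∈ Finset.Ioc 0 N, ∑ d ∈ D.divisors, ArithmeticFunction.sigma 1 d
      = ∑ n ∈ Finset.Ioc 0 N, ArithmeticFunction.sigma 1 n * (N / n) := by
    have := ArithmeticFunction.sum_Ioc_mul_zeta_eq_sum (ArithmeticFunction.sigma 1) N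
    simp only [Nat.cast_id] at this
    rw [← this]
    apply Finset.sum_congr rfl
    intro D _
    rw [ArithmeticFunction.natCoe_nat, ArithmeticFunction.mul_zeta_apply]
  set f : ArithmeticFunction ℝ := ⟨fun n => 1 / (n : ℝ), by simp⟩ with hf
  have h2 := ArithmeticFunction.sum_Ioc_mul_zeta_eq_sum f N
  have h3 : ∀ n ∈ Finset.Ioc 0 N, ((ArithmeticFunction.sigma 1 n : ℕ) : ℝ) * ((N / n : ℕ) : ℝ)
      ≤ N * (f * ((ArithmeticFunction.zeta : ArithmeticFunction ℕ) : ArithmeticFunction ℝ)) n := by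
    intro n hn
    have hn0 : 0 < n := (Finset.mem_Ioc.1 hn).1
    have hnR : (0:ℝ) < n := by exact_mod_cast hn0
    rw [ArithmeticFunction.coe_mul_zeta_apply]
    have e1 : ((ArithmeticFunction.sigma 1 n : ℕ) : ℝ) = n * ∑ k ∈ n.divisors, f k := by
      rw [ArithmeticFunction.sigma_one_apply, ← Nat.sum_div_divisors n (fun d => d)]
      push_cast
      rw [Finset.mul_sum]
      apply Finset.sum_congr rfl
      intro k hk
      have hkn := Nat.dvd_of_mem_divisors hk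
      have hk0 : (0:ℝ) < k := by exact_mod_cast Nat.pos_of_mem_divisors hk
      rw [Nat.cast_div hkn hk0.ne']
      simp only [hf, ArithmeticFunction.coe_mk]
      ring
    rw [e1]
    have e2 : ((N / n : ℕ) : ℝ) ≤ (N : ℝ) / n := Nat.cast_div_le
    have e3 : 0 ≤ ∑ k ∈ n.divisors, f k := by
      apply Finset.sum_nonneg
      intro k _
      simp only [hf, ArithmeticFunction.coe_mk]
      positivity
    calc n * (∑ k ∈ n.divisors, f k) * ((N / n : ℕ) : ℝ)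
        ≤ n * (∑ k ∈ n.divisors, f k) * ((N : ℝ) / n) :=
          mul_le_mul_of_nonneg_left e2 (by positivity)
      _ = N * ∑ k ∈ n.divisors, f k := by field_simp
  have h4 : ∑ n ∈ Finset.Ioc 0 N, f n * ((N / n : ℕ) : ℝ) ≤ N * 2 := by
    calc ∑ n ∈ Finset.Ioc 0 N, f n * ((N / n : ℕ) : ℝ)
        ≤ ∑ n ∈ Finset.Ioc 0 N, N * (1 / (n : ℝ) ^ 2) := by
          apply Finset.sum_le_sum
          intro n hn
          have hn0 : 0 < n := (Finset.mem_Ioc.1 hn).1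
          have hnR : (0:ℝ) < n := by exact_mod_cast hn0
          have e2 : ((N / n : ℕ) : ℝ) ≤ (N : ℝ) / n := Nat.cast_div_le
          simp only [hf, ArithmeticFunction.coe_mk]
          calc 1 / (n : ℝ) * ((N / n : ℕ) : ℝ) ≤ 1 / (n : ℝ) * ((N : ℝ) / n) :=
                mul_le_mul_of_nonneg_left e2 (by positivity)
            _ = N * (1 / (n : ℝ) ^ 2) := by ring
      _ = N * ∑ n ∈ Finset.Ioc 0 N, 1 / (n : ℝ) ^ 2 := by rw [Finset.mul_sum]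
      _ ≤ N * 2 := mul_le_mul_of_nonneg_left (sum_inv_sq N) (Nat.cast_nonneg N)
  have h5 : ∑ D ∈ Finset.Ioc 0 N, ∑ d ∈ D.divisors, ((ArithmeticFunction.sigma 1 d : ℕ) : ℝ)
      = ∑ n ∈ Finset.Ioc 0 N, ((ArithmeticFunction.sigma 1 n : ℕ) : ℝ) * ((N / n : ℕ) : ℝ) := by
    exact_mod_cast h1
  rw [h5]
  calc ∑ n ∈ Finset.Ioc 0 N, ((ArithmeticFunction.sigma 1 n : ℕ) : ℝ) * ((N / n : ℕ) : ℝ)
      ≤ ∑ n ∈ Finset.Ioc 0 N,
        N * (f * ((ArithmeticFunction.zeta : ArithmeticFunction ℕ) : ArithmeticFunction ℝ)) n :=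
        Finset.sum_le_sum h3
    _ = N * ∑ n ∈ Finset.Ioc 0 N, f n * ((N / n : ℕ) : ℝ) := by
        rw [← Finset.mul_sum, h2]
    _ ≤ N * (N * 2) := mul_le_mul_of_nonneg_left h4 (Nat.cast_nonneg N)
    _ = 2 * (N : ℝ) ^ 2 := by ring

/-- the bad Hecke points `(a₀, b₀, d₀)` at scale `i` -/
noncomputable def BK (ξ r β : ℝ) (H i : ℕ) : Finset (ℕ × ℕ × ℕ) :=
  (Finset.Ioc 0 (2 * H ^ 2)).biUnion fun D => D.divisors.biUnion fun d =>
    (J_finite (x := ((D / d : ℕ) : ℝ) * ξ) (m := d) (Q := Qb r H i d)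
      (r := rb β H d)).toFinset.image (fun b => (D / d, b, d))

lemma mem_BK {ξ r β : ℝ} {H i a₀ b₀ d₀ : ℕ} (h0 : 0 < a₀ * d₀) (h1 : a₀ * d₀ ≤ 2 * H ^ 2)
    (hb : b₀ ∈ J ((a₀ : ℝ) * ξ) d₀ (Qb r H i d₀) (rb β H d₀)) : (a₀, b₀, d₀) ∈ BK ξ r β H i := by
  have hd₀ : 0 < d₀ := Nat.pos_of_mul_pos_left h0
  unfold BK
  rw [Finset.mem_biUnion]
  refine ⟨a₀ * d₀, Finset.mem_Ioc.2 ⟨h0, h1⟩, ?_⟩
  rw [Finset.mem_biUnion]
  refine ⟨d₀, Nat.mem_divisors.2 ⟨dvd_mul_left _ _, h0.ne'⟩, ?_⟩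
  rw [Finset.mem_image]
  have e : a₀ * d₀ / d₀ = a₀ := Nat.mul_div_cancel _ hd₀
  refine ⟨b₀, (Set.Finite.mem_toFinset _).2 ?_, by rw [e]⟩
  rw [e]
  exact hb

lemma BK_card {ξ r β G : ℝ} {H i : ℕ} (hr : 0 < r) (hβ : 0 ≤ β) (hH : 1 ≤ H) (hG0 : 0 ≤ G)
    (hG : ∀ a₀ d₀ g : ℕ, 0 < a₀ → 0 < d₀ → 0 < g → a₀ * d₀ ≤ 2 * H ^ 2 → G < g →
      T ((a₀ : ℝ) * ξ) d₀ g (Qb r H i d₀) (rb β H d₀) = ∅) :
    ((BK ξ r β H i).card : ℝ) ≤ (∑ D ∈ Finset.Ioc 0 (2 * H ^ 2), (D.divisors.card : ℝ) ^ 2) * G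
      + 2304 * (4 ^ i * β) / r ^ 2 * (H : ℝ) ^ 4 := by
  have hHR : (0:ℝ) < H := by exact_mod_cast hH
  have h1 : (BK ξ r β H i).card ≤ ∑ D ∈ Finset.Ioc 0 (2 * H ^ 2), ∑ d ∈ D.divisors,
      (J (((D / d : ℕ) : ℝ) * ξ) d (Qb r H i d) (rb β H d)).ncard := by
    unfold BK
    refine Finset.card_biUnion_le.trans (Finset.sum_le_sum fun D _ => ?_)
    refine Finset.card_biUnion_le.trans (Finset.sum_le_sum fun d _ => ?_)
    refine Finset.card_image_le.trans (le_of_eq ?_)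
    rw [Set.ncard_eq_toFinset_card _ J_finite]
  have h2 : ((BK ξ r β H i).card : ℝ) ≤ ∑ D ∈ Finset.Ioc 0 (2 * H ^ 2), ∑ d ∈ D.divisors,
      ((J (((D / d : ℕ) : ℝ) * ξ) d (Qb r H i d) (rb β H d)).ncard : ℝ) := by
    exact_mod_cast h1
  have h3 : ∀ D ∈ Finset.Ioc 0 (2 * H ^ 2), ∀ d ∈ D.divisors,
      ((J (((D / d : ℕ) : ℝ) * ξ) d (Qb r H i d) (rb β H d)).ncard : ℝ)
        ≤ (D.divisors.card : ℝ) * G
          + 288 * (4 ^ i * β) / r ^ 2 * ((ArithmeticFunction.sigma 1 d : ℕ) : ℝ) := by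
    intro D hD d hd
    have hD' := Finset.mem_Ioc.1 hD
    have hd0 : 0 < d := Nat.pos_of_mem_divisors hd
    have hdR : (0:ℝ) < d := by exact_mod_cast hd0
    have hdD := Nat.dvd_of_mem_divisors hd
    have ha : 0 < D / d := Nat.div_pos (Nat.le_of_dvd hD'.1 hdD) hd0
    have h4 := J_card (x := ((D / d : ℕ) : ℝ) * ξ) (m := d) (Q := Qb r H i d) (r := rb β H d)
      (G := G) hd0 (by unfold Qb; positivity) (by unfold rb; positivity) hG0 (by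
        intro g hg hGg
        exact hG (D / d) d g ha hd0 (Nat.pos_of_mem_divisors hg)
          (by rw [Nat.div_mul_cancel hdD]; exact hD'.2) hGg)
    refine h4.trans ?_
    have e1 : (d.divisors.card : ℝ) ≤ D.divisors.card := by
      exact_mod_cast Finset.card_le_card (Nat.divisors_subset_of_dvd hD'.1.ne' hdD)
    have e2 : 2 * rb β H d * Qb r H i d ^ 2 = 288 * (4 ^ i * β) / r ^ 2 := by
      unfold rb Qb
      have : (4:ℝ) ^ i = (2 ^ i) ^ 2 := by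
        rw [← pow_mul, mul_comm, pow_mul]
        norm_num
      rw [this]
      field_simp
      ring
    rw [e2]
    gcongr
  refine h2.trans ((Finset.sum_le_sum fun D hD => Finset.sum_le_sum fun d hd =>
    h3 D hD d hd).trans ?_)
  have h5 : ∀ D ∈ Finset.Ioc 0 (2 * H ^ 2), ∑ d ∈ D.divisors, ((D.divisors.card : ℝ) * G
      + 288 * (4 ^ i * β) / r ^ 2 * ((ArithmeticFunction.sigma 1 d : ℕ) : ℝ))
      = (D.divisors.card : ℝ) ^ 2 * G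
        + 288 * (4 ^ i * β) / r ^ 2 * ∑ d ∈ D.divisors, ((ArithmeticFunction.sigma 1 d : ℕ) : ℝ) := by
    intro D _
    rw [Finset.sum_add_distrib, Finset.sum_const, nsmul_eq_mul, ← Finset.mul_sum]
    ring
  rw [Finset.sum_congr rfl h5, Finset.sum_add_distrib, ← Finset.sum_mul, ← Finset.mul_sum]
  have h6 := sum_sigma (2 * H ^ 2)
  push_cast at h6
  have h7 : 288 * (4 ^ i * β) / r ^ 2 * ∑ D ∈ Finset.Ioc 0 (2 * H ^ 2), ∑ d ∈ D.divisors,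
      ((ArithmeticFunction.sigma 1 d : ℕ) : ℝ)
      ≤ 288 * (4 ^ i * β) / r ^ 2 * (2 * (2 * (H : ℝ) ^ 2) ^ 2) :=
    mul_le_mul_of_nonneg_left h6 (by positivity)
  have h8 : 288 * (4 ^ i * β) / r ^ 2 * (2 * (2 * (H : ℝ) ^ 2) ^ 2)
      = 2304 * (4 ^ i * β) / r ^ 2 * (H : ℝ) ^ 4 := by ring
  linarith

/-- matrices of size `H` with a bad image at scale `i` and not nearly degenerate -/
lemma scale_count {ε c r ξ : ℝ} (hε : 0 < ε) (hc : 0 < c) (hr : 0 < r)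
    (hcW : 4 * (c * W ε) ≤ r ^ 2) {H i : ℕ} (hH : 1 ≤ H) (hξ : |ξ| ≤ 1)
    (F : Finset (ℤ × ℤ × ℤ × ℤ))
    (hF : ∀ t ∈ F, |t.1| ≤ H ∧ |t.2.1| ≤ H ∧ |t.2.2.1| ≤ H ∧ |t.2.2.2| ≤ H ∧
      r * H ≤ |(t.2.2.1 : ℝ) * ξ + t.2.2.2| ∧
      r ^ 2 * (H : ℝ) ^ 2 ≤ |(t.1 : ℝ) * t.2.2.2 - t.2.1 * t.2.2.1| ∧
      ∃ (p : ℤ) (q : ℕ), Int.gcd p q = 1 ∧ 2 ^ i ≤ q ∧ q < 2 ^ (i + 1) ∧
        |((t.1 : ℝ) * ξ + t.2.1) / ((t.2.2.1 : ℝ) * ξ + t.2.2.2) - (p : ℝ) / (q : ℝ)|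
          ≤ bet ε c i) :
    F.card ≤ (BK ξ r (bet ε c i) H i).card * (2 * ⌊2 / r ^ 2⌋₊ + 1) ^ 4 := by
  classical
  have hHR : (0:ℝ) < H := by exact_mod_cast hH
  let P : (ℤ × ℤ × ℤ × ℤ) → (ℕ × ℕ × ℕ) → Prop := fun t k =>
    |t.1 * t.2.2.2 - t.2.1 * t.2.2.1| = ((k.1 * k.2.2 : ℕ) : ℤ) ∧
      (t.1, t.2.1) ∈ Lat k.1 k.2.1 k.2.2 ∧ (t.2.2.1, t.2.2.2) ∈ Lat k.1 k.2.1 k.2.2
  have hsub : F ⊆ (BK ξ r (bet ε c i) H i).biUnion (fun k => F.filter (fun t => P t k)) := by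
    intro t ht
    obtain ⟨h1, h2, h3, h4, h5, h6, p, q, h7, h8, h9, h10⟩ := hF t ht
    obtain ⟨a₀, b₀, d₀, ha₀, hidx, hL1, hL2, hJ⟩ :=
      scale_key hε hc hr hcW hH hξ h3 h4 h5 h6 h7 h8 h9 h10
    rw [Finset.mem_biUnion]
    refine ⟨(a₀, b₀, d₀), ?_, Finset.mem_filter.2 ⟨ht, ?_⟩⟩
    · have hdetpos : 0 < a₀ * d₀ := by
        have : (0:ℝ) < |(t.1 : ℝ) * t.2.2.2 - t.2.1 * t.2.2.1| :=
          lt_of_lt_of_le (by positivity) h6
        have h11 : (((a₀ * d₀ : ℕ) : ℤ) : ℝ) = |(t.1 : ℝ) * t.2.2.2 - t.2.1 * t.2.2.1| := by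
          rw [hidx]
          push_cast
          rfl
        rw [← h11] at this
        exact_mod_cast this
      refine mem_BK hdetpos ?_ hJ
      have h12 : |t.1 * t.2.2.2 - t.2.1 * t.2.2.1| ≤ 2 * (H : ℤ) ^ 2 := by
        have e1 : |t.1 * t.2.2.2| ≤ (H : ℤ) * H := by
          rw [abs_mul]
          exact mul_le_mul h1 h4 (abs_nonneg _) (Int.natCast_nonneg H)
        have e2 : |t.2.1 * t.2.2.1| ≤ (H : ℤ) * H := by
          rw [abs_mul]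
          exact mul_le_mul h2 h3 (abs_nonneg _) (Int.natCast_nonneg H)
        have e3 := abs_sub (t.1 * t.2.2.2) (t.2.1 * t.2.2.1)
        nlinarith
      rw [← hidx] at h12
      exact_mod_cast h12
    · exact ⟨hidx.symm, hL1, hL2⟩
  refine (Finset.card_le_card hsub).trans (Finset.card_biUnion_le.trans ?_)
  have hfib : ∀ k ∈ BK ξ r (bet ε c i) H i,
      (F.filter (fun t => P t k)).card ≤ (2 * ⌊2 / r ^ 2⌋₊ + 1) ^ 4 := by
    intro k _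
    rcases Finset.eq_empty_or_nonempty (F.filter (fun t => P t k)) with h | ⟨t, ht⟩
    · rw [h]
      simp
    · obtain ⟨htF, htP⟩ := Finset.mem_filter.1 ht
      obtain ⟨_, _, _, _, _, h6, _⟩ := hF t htF
      have h11 : ((k.1 * k.2.2 : ℕ) : ℝ) = |(t.1 : ℝ) * t.2.2.2 - t.2.1 * t.2.2.1| := by
        have : (((k.1 * k.2.2 : ℕ) : ℤ) : ℝ) = |(t.1 : ℝ) * t.2.2.2 - t.2.1 * t.2.2.1| := by
          rw [← htP.1]
          push_cast
          rfl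
        rw [← this, Int.cast_natCast]
      have hpos : (0:ℝ) < ((k.1 * k.2.2 : ℕ) : ℝ) := by
        rw [h11]
        exact lt_of_lt_of_le (by positivity) h6
      apply fiber_card H ⌊2 / r ^ 2⌋₊ k.1 k.2.1 k.2.2 (by exact_mod_cast hpos)
      · have h12 := Nat.lt_floor_add_one (2 / r ^ 2)
        rw [div_lt_iff₀ (by positivity)] at h12
        have h13 : 2 * (H : ℝ) ^ 2 < ((⌊2 / r ^ 2⌋₊ : ℝ) + 1) * ((k.1 * k.2.2 : ℕ) : ℝ) := by
          rw [← h11] at h6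
          calc 2 * (H : ℝ) ^ 2 < (((⌊2 / r ^ 2⌋₊ : ℝ) + 1) * r ^ 2) * (H : ℝ) ^ 2 :=
                mul_lt_mul_of_pos_right h12 (by positivity)
            _ = ((⌊2 / r ^ 2⌋₊ : ℝ) + 1) * (r ^ 2 * (H : ℝ) ^ 2) := by ring
            _ ≤ _ := mul_le_mul_of_nonneg_left h6 (by positivity)
        exact_mod_cast h13
      · intro s hs
        obtain ⟨hsF, hsP⟩ := Finset.mem_filter.1 hs
        obtain ⟨s1, s2, s3, s4, _⟩ := hF s hsF
        exact ⟨s1, s2, s3, s4, hsP.1, hsP.2.1, hsP.2.2⟩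
  calc ∑ k ∈ BK ξ r (bet ε c i) H i, (F.filter (fun t => P t k)).card
      ≤ ∑ k ∈ BK ξ r (bet ε c i) H i, (2 * ⌊2 / r ^ 2⌋₊ + 1) ^ 4 := Finset.sum_le_sum hfib
    _ = _ := by rw [Finset.sum_const, smul_eq_mul]

end Pool.Agent.Helper95.Mob
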